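import Pool.Agent.Work.MP_02d86d_gt.Body

/-! Steiner symmetrization is a contraction for the volume of the symmetric difference. -/

set_option autoImplicit false

namespace MP_02d86d_gt

open MeasureTheory Set Filter Topology Metric

variable {n : ℕ}

/-- If two sets are nested, the measure of their symmetric difference is the least possible. -/
theorem volume_symmDiff_nested {A B A' B' : Set ℝ} (hA' : MeasurableSet A')
    (hA : volume A' = volume A) (hB : volume B' = volume B) (hf : volume A ≠ ⊤)
    (h : A' ⊆ B') : volume (symmDiff A' B') ≤ volume (symmDiff A B) := by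
  have e : symmDiff A' B' = B' \ A' := by
    rw [Set.symmDiff_def, Set.sdiff_eq_empty.2 h, Set.empty_union]
  rw [e, measure_sdiff h hA'.nullMeasurableSet (by rw [hA]; exact hf), hA, hB,
    tsub_le_iff_left]
  refine (measure_mono ?_).trans (measure_union_le _ _)
  intro x hx
  by_cases h1 : x ∈ A
  · exact Or.inl h1
  · exact Or.inr (Or.inr ⟨hx, h1⟩)

/-- The chords of two symmetrals are nested. -/
theorem chord_nested {u : EuclideanSpace ℝ (Fin n)} (hu : ‖u‖ = 1)
    {K L : Set (EuclideanSpace ℝ (Fin n))} (hK : IsCompact K) (hcK : Convex ℝ K)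
    (hL : IsCompact L) (hcL : Convex ℝ L) (t : (ℝ ∙ u)ᗮ) :
    chord u (st u K) t ⊆ chord u (st u L) t ∨ chord u (st u L) t ⊆ chord u (st u K) t := by
  rcases chord_cases hu hK hcK t with h | ⟨a, b, hab, h⟩
  · left
    rw [chord_st_empty hu h]
    exact empty_subset _
  · rcases chord_cases hu hL hcL t with h' | ⟨c, d, hcd, h'⟩
    · right
      rw [chord_st_empty hu h']
      exact empty_subset _
    · rw [chord_st hu hab h, chord_st hu hcd h']
      rcases le_total (b - a) (d - c) with h1 | h1
      · left
        exact Icc_subset_Icc (by linarith) (by linarith)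
      · right
        exact Icc_subset_Icc (by linarith) (by linarith)

/-- The chord of the symmetral has the same length. -/
theorem volume_chord_st {u : EuclideanSpace ℝ (Fin n)} (hu : ‖u‖ = 1)
    {K : Set (EuclideanSpace ℝ (Fin n))} (hK : IsCompact K) (hc : Convex ℝ K) (t : (ℝ ∙ u)ᗮ) :
    volume (chord u (st u K) t) = volume (chord u K t) := by
  rcases chord_cases hu hK hc t with h | ⟨a, b, hab, h⟩
  · rw [chord_st_empty hu h, h]
  · rw [chord_st hu hab h, h, Real.volume_Icc, Real.volume_Icc]
    congr 1
    ring

theorem chord_symmDiff (u : EuclideanSpace ℝ (Fin n)) (K L : Set (EuclideanSpace ℝ (Fin n)))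
    (t : (ℝ ∙ u)ᗮ) : chord u (symmDiff K L) t = symmDiff (chord u K t) (chord u L t) := rfl

/-- Steiner symmetrization does not increase the volume of the symmetric difference. -/
theorem symmDiff_st_le {u : EuclideanSpace ℝ (Fin n)} (hu : ‖u‖ = 1)
    {K L : Set (EuclideanSpace ℝ (Fin n))} (hK : IsCompact K) (hcK : Convex ℝ K)
    (hL : IsCompact L) (hcL : Convex ℝ L) :
    volume (symmDiff (st u K) (st u L)) ≤ volume (symmDiff K L) := by
  have cK := isCompact_st hu hK hcK
  have cL := isCompact_st hu hL hcL
  rw [volume_eq_chords hu (cK.measurableSet.symmDiff cL.measurableSet),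
    volume_eq_chords hu (hK.measurableSet.symmDiff hL.measurableSet)]
  refine lintegral_mono fun t => ?_
  simp only [chord_symmDiff]
  have e1 := volume_chord_st hu hK hcK t
  have e2 := volume_chord_st hu hL hcL t
  rcases chord_nested hu hK hcK hL hcL t with h | h
  · exact volume_symmDiff_nested (isCompact_chord hu cK t).measurableSet e1 e2
      (isCompact_chord hu hK t).measure_lt_top.ne h
  · rw [symmDiff_comm, symmDiff_comm (chord u K t)]
    exact volume_symmDiff_nested (isCompact_chord hu cL t).measurableSet e2 e1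
      (isCompact_chord hu hL t).measure_lt_top.ne h

/-- Linear isometries preserve the volume of all sets. -/
theorem volume_isom (ψ : EuclideanSpace ℝ (Fin n) ≃ₗᵢ[ℝ] EuclideanSpace ℝ (Fin n))
    (S : Set (EuclideanSpace ℝ (Fin n))) : volume (ψ '' S) = volume S := by
  have h1 : ψ '' S = ψ.symm ⁻¹' S := by
    ext x
    rw [mem_preimage]
    constructor
    · rintro ⟨y, hy, rfl⟩
      rw [LinearIsometryEquiv.symm_apply_apply]
      exact hy
    · intro h
      exact ⟨_, h, LinearIsometryEquiv.apply_symm_apply _ _⟩
  rw [h1]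
  have h2 := (ψ.symm.measurePreserving (E := EuclideanSpace ℝ (Fin n))
    (F := EuclideanSpace ℝ (Fin n)))
  exact MeasurePreserving.measure_preimage_equiv (f := ψ.symm.toMeasurableEquiv) h2 S

theorem symmDiff_isom (ψ : EuclideanSpace ℝ (Fin n) ≃ₗᵢ[ℝ] EuclideanSpace ℝ (Fin n))
    (K L : Set (EuclideanSpace ℝ (Fin n))) :
    volume (symmDiff (ψ '' K) (ψ '' L)) = volume (symmDiff K L) := by
  rw [← image_symmDiff ψ.injective, volume_isom]

end MP_02d86d_gt
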