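import Pool.Agent.Work.MP_02d86d_gt.Dih.Rot

/-! Images of sets with dihedral symmetry under isometries. -/

set_option autoImplicit false

namespace MP_02d86d_gt

open MeasureTheory Set Filter Topology Metric

theorem exists_rot (A : EuclideanSpace ℝ (Fin 2) ≃ₗᵢ[ℝ] EuclideanSpace ℝ (Fin 2)) :
    ∃ b : ℝ, (∀ x, A x = rot b x) ∨ ∀ x, A x = rot b (rho (dir 0) x) := by
  obtain ⟨a, ha, h⟩ := zc_isom A
  have ha' : a = Complex.exp (Complex.arg a * Complex.I) := by
    have h1 := Complex.norm_mul_exp_arg_mul_I a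
    rw [ha] at h1
    simpa using h1.symm
  rcases h with h | h
  · refine ⟨Complex.arg a, Or.inl fun x => ?_⟩
    apply zc_inj
    rw [h, zc_rot, ← ha']
  · refine ⟨Complex.arg a + Real.pi, Or.inr fun x => ?_⟩
    apply zc_inj
    rw [h, zc_rot, zc_rho]
    push_cast
    rw [add_mul, Complex.exp_add, ← ha', Complex.exp_pi_mul_I]
    simp

theorem image_rot_neg {a : ℝ} {L : Set (EuclideanSpace ℝ (Fin 2))} (h : rot a '' L = L) :
    rot (-a) '' L = L := by
  conv_lhs => rw [← h]
  rw [image_image]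
  have : ∀ x, rot (-a) (rot a x) = x := fun x => by rw [rot_rot]; simp [rot_zero]
  simp only [this, image_id']

theorem dihed_rot {p : ℕ} {t : ℝ} {L : Set (EuclideanSpace ℝ (Fin 2))} (h : Dihed p t L)
    (b : ℝ) : Dihed p (t + b) (rot b '' L) := by
  obtain ⟨h1, h2⟩ := h
  constructor
  · rw [image_image]
    have : ∀ x, rot (2 * Real.pi / p) (rot b x) = rot b (rot (2 * Real.pi / p) x) := fun x => by
      rw [rot_rot, rot_rot, add_comm]
    simp only [this]
    rw [← image_image (rot b) (rot (2 * Real.pi / p)), h1]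
  · rw [image_image]
    simp only [rho_dir_add']
    rw [← image_image (rot b) (rho (dir t)), h2]

theorem dihed_rho {p : ℕ} {t : ℝ} {L : Set (EuclideanSpace ℝ (Fin 2))} (h : Dihed p t L) :
    Dihed p (-t) (rho (dir 0) '' L) := by
  obtain ⟨h1, h2⟩ := h
  constructor
  · rw [image_image]
    have : ∀ x, rot (2 * Real.pi / p) (rho (dir 0) x) =
        rho (dir 0) (rot (-(2 * Real.pi / p)) x) := fun x => by
      rw [rho_rot, neg_neg]
    simp only [this]
    rw [← image_image (rho (dir 0)) (rot (-(2 * Real.pi / p))), image_rot_neg h1]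
  · rw [image_image]
    have : ∀ x, rho (dir (-t)) (rho (dir 0) x) = rho (dir 0) (rho (dir t) x) := fun x => by
      have e1 := rho_dir_add 0 (-t) (rho (dir 0) x)
      rw [zero_add, rho_rho] at e1
      have e2 := rho_dir_add 0 t x
      rw [zero_add] at e2
      rw [e1, e2, rho_rot, rho_rho]
      ring_nf
    simp only [this]
    rw [← image_image (rho (dir 0)) (rho (dir t)), h2]

theorem dihed_image {p : ℕ} {t : ℝ} {L : Set (EuclideanSpace ℝ (Fin 2))} (h : Dihed p t L)
    (A : EuclideanSpace ℝ (Fin 2) ≃ₗᵢ[ℝ] EuclideanSpace ℝ (Fin 2)) :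
    ∃ t' : ℝ, Dihed p t' (A '' L) := by
  obtain ⟨b, hb | hb⟩ := exists_rot A
  · refine ⟨t + b, ?_⟩
    simp only [hb]
    exact dihed_rot h b
  · refine ⟨-t + b, ?_⟩
    simp only [hb]
    rw [← image_image (rot b) (rho (dir 0))]
    exact dihed_rot (dihed_rho h) b

/-- An isometry is a linear isometry up to a translation. -/
theorem image_isometry {n : ℕ} (η : IsometryEquiv (EuclideanSpace ℝ (Fin n)) (EuclideanSpace ℝ (Fin n)))
    (L : Set (EuclideanSpace ℝ (Fin n))) :
    ∃ (c : EuclideanSpace ℝ (Fin n))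
      (A : EuclideanSpace ℝ (Fin n) ≃ₗᵢ[ℝ] EuclideanSpace ℝ (Fin n)),
      (fun x => x - c) '' (η '' L) = A '' L := by
  refine ⟨η 0, η.toRealLinearIsometryEquiv, ?_⟩
  rw [image_image]
  refine image_congr fun x _ => ?_
  rw [IsometryEquiv.toRealLinearIsometryEquiv_apply]

end MP_02d86d_gt
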