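import Mathlib

/-! Two limits of images of the same sequence under isometries are congruent. -/

set_option autoImplicit false

namespace MP_02d86d_gt

open MeasureTheory Set Filter Topology Metric

variable {n : ℕ}

theorem isom_of_limits {K : ℕ → Set (EuclideanSpace ℝ (Fin n))}
    {L L' : Set (EuclideanSpace ℝ (Fin n))} (hK : ∀ i, (K i).Nonempty) (hL : L.Nonempty)
    (hL' : L'.Nonempty) (cK : ∀ i, IsCompact (K i)) (cL : IsCompact L) (cL' : IsCompact L')
    (h : Tendsto (fun i => hausdorffDist (K i) L) atTop (𝓝 0))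
    (ψ : ℕ → IsometryEquiv (EuclideanSpace ℝ (Fin n)) (EuclideanSpace ℝ (Fin n)))
    (h' : Tendsto (fun i => hausdorffDist (ψ i '' K i) L') atTop (𝓝 0)) :
    ∃ η : IsometryEquiv (EuclideanSpace ℝ (Fin n)) (EuclideanSpace ℝ (Fin n)),
      L' = η '' L := by
  have hfin : ∀ {s t : Set (EuclideanSpace ℝ (Fin n))}, s.Nonempty → t.Nonempty →
      Bornology.IsBounded s → Bornology.IsBounded t → hausdorffEDist s t ≠ ⊤ :=
    fun hs ht bs bt => hausdorffEDist_ne_top_of_nonempty_of_bounded hs ht bs bt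
  have cim : ∀ i, IsCompact (ψ i '' L) := fun i => cL.image (ψ i).continuous
  -- the images of `L` tend to `L'`
  have h1 : Tendsto (fun i => hausdorffDist (ψ i '' L) L') atTop (𝓝 0) := by
    have hle : ∀ i, hausdorffDist (ψ i '' L) L' ≤
        hausdorffDist (K i) L + hausdorffDist (ψ i '' K i) L' := by
      intro i
      have h2 : hausdorffDist (ψ i '' L) (ψ i '' K i) = hausdorffDist (K i) L := by
        rw [hausdorffDist_comm, hausdorffDist_image (ψ i).isometry]
      have h3 := hausdorffDist_triangle (s := ψ i '' L) (t := ψ i '' K i) (u := L')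
        (hfin (hL.image _) ((hK i).image _) (cim i).isBounded
          ((cK i).image (ψ i).continuous).isBounded)
      rw [h2] at h3
      exact h3
    refine squeeze_zero (fun i => hausdorffDist_nonneg) hle ?_
    simpa using h.add h'
  -- an ultrafilter
  let U : Ultrafilter ℕ := hyperfilter ℕ
  have hU : (U : Filter ℕ) ≤ atTop := Nat.hyperfilter_le_atTop
  obtain ⟨x₀, hx₀⟩ := hL
  obtain ⟨M, hM⟩ := cL'.isBounded.subset_closedBall 0
  have hev : ∀ x : EuclideanSpace ℝ (Fin n), ∀ᶠ i in (U : Filter ℕ),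
      ψ i x ∈ closedBall (0 : EuclideanSpace ℝ (Fin n)) (M + 1 + dist x x₀) := by
    intro x
    have h2 : ∀ᶠ i in atTop, hausdorffDist (ψ i '' L) L' < 1 :=
      h1.eventually (gt_mem_nhds one_pos)
    filter_upwards [h2.filter_mono hU] with i hi
    obtain ⟨y, hy, hdy⟩ := exists_dist_lt_of_hausdorffDist_lt (mem_image_of_mem (ψ i) hx₀) hi
      (hfin ⟨_, mem_image_of_mem (ψ i) hx₀⟩ hL' (cim i).isBounded cL'.isBounded)
    have h3 := hM hy
    rw [mem_closedBall] at h3 ⊢
    calc dist (ψ i x) 0 ≤ dist (ψ i x) (ψ i x₀) + dist (ψ i x₀) y + dist y 0 :=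
          dist_triangle4 _ _ _ _
      _ = dist x x₀ + dist (ψ i x₀) y + dist y 0 := by rw [(ψ i).isometry.dist_eq]
      _ ≤ _ := by linarith
  have hlim : ∀ x : EuclideanSpace ℝ (Fin n), ∃ y, Tendsto (fun i => ψ i x) (U : Filter ℕ) (𝓝 y) := by
    intro x
    obtain ⟨y, _, hy⟩ := (isCompact_closedBall (0 : EuclideanSpace ℝ (Fin n))
      (M + 1 + dist x x₀)).ultrafilter_le_nhds (U.map (fun i => ψ i x))
      (by rw [le_principal_iff]; exact hev x)
    exact ⟨y, hy⟩
  choose f hf using hlim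
  have hfi : Isometry f := by
    apply Isometry.of_dist_eq
    intro x y
    have h2 : Tendsto (fun i => dist (ψ i x) (ψ i y)) (U : Filter ℕ) (𝓝 (dist (f x) (f y))) :=
      (hf x).dist (hf y)
    have h3 : (fun i => dist (ψ i x) (ψ i y)) = fun _ => dist x y := by
      funext i
      exact (ψ i).isometry.dist_eq x y
    rw [h3] at h2
    exact tendsto_nhds_unique h2 tendsto_const_nhds
  let g : EuclideanSpace ℝ (Fin n) →ᵃⁱ[ℝ] EuclideanSpace ℝ (Fin n) :=
    hfi.affineIsometryOfStrictConvexSpace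
  let η : IsometryEquiv (EuclideanSpace ℝ (Fin n)) (EuclideanSpace ℝ (Fin n)) :=
    (g.toAffineIsometryEquiv rfl).toIsometryEquiv
  have hη : ∀ x, η x = f x := fun x => rfl
  refine ⟨η, Subset.antisymm ?_ ?_⟩
  · intro y hy
    -- points of `L` whose images are near `y`
    have hsel : ∀ i, ∃ x ∈ L, dist y (ψ i x) ≤ hausdorffDist (ψ i '' L) L' := by
      intro i
      have h2 : infDist y (ψ i '' L) ≤ hausdorffDist L' (ψ i '' L) :=
        infDist_le_hausdorffDist_of_mem hy (hfin hL' ⟨_, mem_image_of_mem (ψ i) hx₀⟩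
          cL'.isBounded (cim i).isBounded)
      obtain ⟨z, ⟨x, hx, rfl⟩, hz⟩ := (cim i).exists_infDist_eq_dist
        ⟨_, mem_image_of_mem (ψ i) hx₀⟩ y
      refine ⟨x, hx, ?_⟩
      rw [← hz, hausdorffDist_comm]
      exact h2
    choose x hx hxd using hsel
    obtain ⟨z, hz, hzl⟩ := cL.ultrafilter_le_nhds (U.map x) (by
      rw [le_principal_iff]
      have h2 : ∀ᶠ i in (U : Filter ℕ), x i ∈ L := Eventually.of_forall hx
      exact h2)
    have hzl' : Tendsto x (U : Filter ℕ) (𝓝 z) := hzl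
    refine ⟨z, hz, ?_⟩
    rw [hη]
    have h2 : Tendsto (fun i => hausdorffDist (ψ i '' L) L' + dist (x i) z + dist (ψ i z) (f z))
        (U : Filter ℕ) (𝓝 (0 + 0 + 0)) := by
      refine ((h1.mono_left hU).add ?_).add ?_
      · exact tendsto_iff_dist_tendsto_zero.1 hzl'
      · exact tendsto_iff_dist_tendsto_zero.1 (hf z)
    have h3 : ∀ i, dist (f z) y ≤ hausdorffDist (ψ i '' L) L' + dist (x i) z +
        dist (ψ i z) (f z) := by
      intro i
      calc dist (f z) y = dist y (f z) := dist_comm _ _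
        _ ≤ dist y (ψ i (x i)) + dist (ψ i (x i)) (ψ i z) + dist (ψ i z) (f z) :=
          dist_triangle4 _ _ _ _
        _ ≤ _ := by
          rw [(ψ i).isometry.dist_eq]
          have := hxd i
          linarith
    have h4 : dist (f z) y ≤ 0 + 0 + 0 := ge_of_tendsto' h2 h3
    have h5 : dist (f z) y = 0 := le_antisymm (by simpa using h4) dist_nonneg
    exact dist_eq_zero.1 h5
  · rintro _ ⟨x, hx, rfl⟩
    rw [hη]
    have h2 : Tendsto (fun i => infDist (ψ i x) L') (U : Filter ℕ) (𝓝 (infDist (f x) L')) :=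
      ((continuous_infDist_pt L').tendsto _).comp (hf x)
    have h3 : ∀ i, infDist (ψ i x) L' ≤ hausdorffDist (ψ i '' L) L' := fun i =>
      infDist_le_hausdorffDist_of_mem (mem_image_of_mem (ψ i) hx)
        (hfin ⟨_, mem_image_of_mem (ψ i) hx₀⟩ hL' (cim i).isBounded cL'.isBounded)
    have h4 : infDist (f x) L' ≤ 0 := le_of_tendsto_of_tendsto' h2 (h1.mono_left hU) h3
    have h5 : infDist (f x) L' = 0 := le_antisymm h4 infDist_nonneg
    exact (cL'.isClosed.mem_iff_infDist_zero hL').2 h5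

end MP_02d86d_gt
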