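import Pool.Agent.Work.MP_02d86d_gt.Comp

/-! Compactness of the group of linear isometries, for volumes of symmetric differences. -/

set_option autoImplicit false

namespace MP_02d86d_gt

open MeasureTheory Set Filter Topology Metric

variable {n : ℕ}

/-- A sequence of linear isometries has a subsequence which converges in norm to a linear
isometry. -/
theorem exists_isom_subseq
    (χ : ℕ → (EuclideanSpace ℝ (Fin n) ≃ₗᵢ[ℝ] EuclideanSpace ℝ (Fin n))) :
    ∃ (η : EuclideanSpace ℝ (Fin n) ≃ₗᵢ[ℝ] EuclideanSpace ℝ (Fin n)) (φ : ℕ → ℕ),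
      StrictMono φ ∧ ∃ δ : ℕ → ℝ, Tendsto δ atTop (𝓝 0) ∧
        ∀ i x, ‖χ (φ i) x - η x‖ ≤ δ i * ‖x‖ := by
  let f : ℕ → (EuclideanSpace ℝ (Fin n) →L[ℝ] EuclideanSpace ℝ (Fin n)) := fun i =>
    ((χ i).toContinuousLinearEquiv : EuclideanSpace ℝ (Fin n) →L[ℝ] EuclideanSpace ℝ (Fin n))
  have hf : ∀ i x, f i x = χ i x := fun i x => rfl
  have hb : ∀ i, f i ∈ closedBall (0 : EuclideanSpace ℝ (Fin n) →L[ℝ] EuclideanSpace ℝ (Fin n))
      1 := by
    intro i
    rw [mem_closedBall_zero_iff]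
    refine ContinuousLinearMap.opNorm_le_bound _ zero_le_one fun x => ?_
    rw [hf, LinearIsometryEquiv.norm_map, one_mul]
  haveI : ProperSpace (EuclideanSpace ℝ (Fin n) →L[ℝ] EuclideanSpace ℝ (Fin n)) :=
    FiniteDimensional.proper_real _
  obtain ⟨A, _, φ, hφ, hA⟩ := (isCompact_closedBall
    (0 : EuclideanSpace ℝ (Fin n) →L[ℝ] EuclideanSpace ℝ (Fin n)) 1).tendsto_subseq hb
  have hA0 : Tendsto (fun i => ‖f (φ i) - A‖) atTop (𝓝 0) :=
    tendsto_iff_norm_sub_tendsto_zero.1 hA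
  have hdist : ∀ i x, ‖χ (φ i) x - A x‖ ≤ ‖f (φ i) - A‖ * ‖x‖ := fun i x =>
    ContinuousLinearMap.le_opNorm (f (φ i) - A) x
  have hnorm : ∀ x, ‖A x‖ = ‖x‖ := by
    intro x
    have h1 : Tendsto (fun i => χ (φ i) x) atTop (𝓝 (A x)) := by
      rw [tendsto_iff_norm_sub_tendsto_zero]
      refine squeeze_zero (fun i => norm_nonneg _) (fun i => hdist i x) ?_
      simpa using hA0.mul_const ‖x‖
    have h2 : Tendsto (fun i => ‖χ (φ i) x‖) atTop (𝓝 ‖A x‖) := h1.norm
    have h3 : (fun i => ‖χ (φ i) x‖) = fun _ => ‖x‖ :=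
      funext fun i => LinearIsometryEquiv.norm_map _ _
    rw [h3] at h2
    exact tendsto_nhds_unique h2 tendsto_const_nhds
  let a : EuclideanSpace ℝ (Fin n) →ₗᵢ[ℝ] EuclideanSpace ℝ (Fin n) :=
    { toLinearMap := (A : EuclideanSpace ℝ (Fin n) →ₗ[ℝ] EuclideanSpace ℝ (Fin n))
      norm_map' := fun x => hnorm x }
  refine ⟨a.toLinearIsometryEquiv rfl, φ, hφ, fun i => ‖f (φ i) - A‖, hA0, fun i x => ?_⟩
  exact hdist i x

/-- linear isometries: a subsequence converges (uniformly on bounded sets), so volumes of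
symmetric differences pass to the limit -/
theorem isom_of_symmDiff {R : ℝ} {K : ℕ → Set (EuclideanSpace ℝ (Fin n))}
    {L M : Set (EuclideanSpace ℝ (Fin n))} (hK : ∀ i, (K i).Nonempty) (hL : L.Nonempty)
    (cK : ∀ i, IsCompact (K i)) (cL : IsCompact L) (vK : ∀ i, Convex ℝ (K i))
    (vL : Convex ℝ L) (bK : ∀ i, K i ⊆ closedBall 0 R) (cM : IsCompact M) (vM : Convex ℝ M)
    (nM : M.Nonempty)
    (h : Tendsto (fun i => hausdorffDist (K i) L) atTop (𝓝 0))
    (χ : ℕ → (EuclideanSpace ℝ (Fin n) ≃ₗᵢ[ℝ] EuclideanSpace ℝ (Fin n))) {e : ENNReal}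
    (he : ∀ i, volume (symmDiff (K i) (χ i '' M)) ≤ e) :
    ∃ η : EuclideanSpace ℝ (Fin n) ≃ₗᵢ[ℝ] EuclideanSpace ℝ (Fin n),
      volume (symmDiff L (η '' M)) ≤ e := by
  obtain ⟨η, φ, hφ, δ, hδ, hd⟩ := exists_isom_subseq χ
  refine ⟨η, ?_⟩
  obtain ⟨r, hr⟩ := cM.isBounded.subset_closedBall (0 : EuclideanSpace ℝ (Fin n))
  have hr' : ∀ x ∈ M, ‖x‖ ≤ max r 0 := fun x hx =>
    (mem_closedBall_zero_iff.1 (hr hx)).trans (le_max_left _ _)
  have cχ : ∀ i, IsCompact (χ (φ i) '' M) := fun i =>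
    cM.image (LinearIsometryEquiv.continuous _)
  have cη : IsCompact (η '' M) := cM.image (LinearIsometryEquiv.continuous _)
  have bχ : ∀ i, χ (φ i) '' M ⊆ closedBall 0 (max r 0) := by
    rintro i _ ⟨x, hx, rfl⟩
    rw [mem_closedBall_zero_iff, LinearIsometryEquiv.norm_map]
    exact hr' x hx
  have hδ0 : ∀ i, 0 ≤ |δ i| * max r 0 := fun i =>
    mul_nonneg (abs_nonneg _) (le_max_right _ _)
  have hpt : ∀ i, ∀ x ∈ M, dist (χ (φ i) x) (η x) ≤ |δ i| * max r 0 := by
    intro i x hx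
    rw [dist_eq_norm]
    refine (hd i x).trans ?_
    exact mul_le_mul (le_abs_self _) (hr' x hx) (norm_nonneg _) (abs_nonneg _)
  have hlim : Tendsto (fun i => hausdorffDist (χ (φ i) '' M) (η '' M)) atTop (𝓝 0) := by
    refine squeeze_zero (fun i => hausdorffDist_nonneg) (fun i => ?_)
      (g := fun i => |δ i| * max r 0) ?_
    · refine hausdorffDist_le_of_mem_dist (hδ0 i) ?_ ?_
      · rintro _ ⟨x, hx, rfl⟩
        exact ⟨η x, mem_image_of_mem _ hx, hpt i x hx⟩
      · rintro _ ⟨x, hx, rfl⟩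
        refine ⟨χ (φ i) x, mem_image_of_mem _ hx, ?_⟩
        rw [dist_comm]
        exact hpt i x hx
    · have h1 := hδ.abs.mul_const (max r 0)
      simpa using h1
  have hKlim : Tendsto (fun i => hausdorffDist (K (φ i)) L) atTop (𝓝 0) :=
    h.comp hφ.tendsto_atTop
  have h1 := ae_mem_iff (K := fun i => K (φ i)) (fun i => hK _) hL (fun i => cK _) cL
    (fun i => vK _) vL hKlim
  have h2 := ae_mem_iff (K := fun i => χ (φ i) '' M) (fun i => nM.image _) (nM.image η)
    cχ cη (fun i => vM.linear_image (χ (φ i)).toLinearEquiv.toLinearMap)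
    (vM.linear_image η.toLinearEquiv.toLinearMap) hlim
  have h3 : Tendsto (fun i => volume (symmDiff (K (φ i)) (χ (φ i) '' M))) atTop
      (𝓝 (volume (symmDiff L (η '' M)))) := by
    refine tendsto_measure_of_ae_tendsto_indicator atTop
      (cL.measurableSet.symmDiff cη.measurableSet)
      (fun i => (cK _).measurableSet.symmDiff (cχ i).measurableSet)
      (B := closedBall 0 (max R (max r 0))) measurableSet_closedBall
      measure_closedBall_lt_top.ne (Eventually.of_forall fun i => ?_) ?_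
    · rintro x (hx | hx)
      · exact closedBall_subset_closedBall (le_max_left _ _) (bK _ hx.1)
      · exact closedBall_subset_closedBall (le_max_right _ _) (bχ _ hx.1)
    · filter_upwards [h1, h2] with x hx1 hx2
      filter_upwards [hx1, hx2] with i hi1 hi2
      rw [mem_symmDiff, mem_symmDiff, hi1, hi2]
  exact le_of_tendsto' h3 fun i => he _

end MP_02d86d_gt
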