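import Pool.Agent.Work.MP_02d86d_gt.B.Mono

/-! For convex bodies, convergence in volume implies Hausdorff convergence. -/

set_option autoImplicit false

namespace MP_02d86d_gt

open MeasureTheory Set Filter Topology Metric

variable {n : ℕ}

/-- a convex body is contained, up to a null set, in another one only if it is contained in it -/
theorem subset_of_null {L M : Set (EuclideanSpace ℝ (Fin n))} (cL : IsCompact L)
    (cM : IsCompact M) (vL : Convex ℝ L) (iL : (interior L).Nonempty)
    (h : volume (symmDiff L M) = 0) : L ⊆ M := by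
  have h1 : interior L ⊆ M := by
    intro x hx
    by_contra hxM
    have hU : IsOpen (interior L ∩ Mᶜ) := isOpen_interior.inter cM.isClosed.isOpen_compl
    have hp : 0 < volume (interior L ∩ Mᶜ) := hU.measure_pos volume ⟨x, hx, hxM⟩
    have h2 : interior L ∩ Mᶜ ⊆ symmDiff L M := fun z hz => Or.inl ⟨interior_subset hz.1, hz.2⟩
    exact absurd (measure_mono_null h2 h) hp.ne'
  have h3 : L ⊆ closure (interior L) := by
    rw [vL.closure_interior_eq_closure_of_nonempty_interior iL]
    exact subset_closure
  exact h3.trans (closure_minimal h1 cM.isClosed)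

theorem hausdorff_of_volume {R : ℝ} {L : Set (EuclideanSpace ℝ (Fin n))} (cL : IsCompact L)
    (vL : Convex ℝ L) (iL : (interior L).Nonempty) {A : ℕ → Set (EuclideanSpace ℝ (Fin n))}
    (cA : ∀ i, IsCompact (A i)) (vA : ∀ i, Convex ℝ (A i)) (nA : ∀ i, (A i).Nonempty)
    (bA : ∀ i, A i ⊆ closedBall 0 R)
    (h : Tendsto (fun i => volume (symmDiff (A i) L)) atTop (𝓝 0)) :
    Tendsto (fun i => hausdorffDist (A i) L) atTop (𝓝 0) := by
  refine tendsto_of_subseq_tendsto fun φ hφ => ?_
  obtain ⟨M, ψ, hψ, cM, vM, nM, bM, hM⟩ := blaschke (fun i => A (φ i)) (fun i => cA _)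
    (fun i => vA _) (fun i => nA _) (fun i => bA _)
  refine ⟨ψ, ?_⟩
  have h1 : Tendsto (fun i => volume (symmDiff (A (φ (ψ i))) L)) atTop
      (𝓝 (volume (symmDiff M L))) := by
    refine tendsto_measure_of_ae_tendsto_indicator atTop
      (cM.measurableSet.symmDiff cL.measurableSet)
      (fun i => (cA _).measurableSet.symmDiff cL.measurableSet)
      (B := closedBall 0 R ∪ L) (measurableSet_closedBall.union cL.measurableSet)
      ((measure_union_lt_top measure_closedBall_lt_top cL.measure_lt_top).ne)
      (Eventually.of_forall fun i => ?_) ?_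
    · rintro x (hx | hx)
      · exact Or.inl (bA _ hx.1)
      · exact Or.inr hx.1
    · filter_upwards [ae_mem_iff (fun i => nA (φ (ψ i))) nM (fun i => cA _) cM (fun i => vA _)
        vM hM] with x hx
      filter_upwards [hx] with i hi
      rw [mem_symmDiff, mem_symmDiff, hi]
  have h2 : Tendsto (fun i => volume (symmDiff (A (φ (ψ i))) L)) atTop (𝓝 0) :=
    h.comp (hφ.comp hψ.tendsto_atTop)
  have h3 : volume (symmDiff M L) = 0 := tendsto_nhds_unique h1 h2
  have h4 : L ⊆ M := subset_of_null cL cM vL iL (by rw [symmDiff_comm]; exact h3)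
  have h5 : M ⊆ L := subset_of_null cM cL vM (iL.mono (interior_mono h4)) h3
  have h6 : M = L := Subset.antisymm h5 h4
  rw [h6] at hM
  exact hM

end MP_02d86d_gt
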