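import Pool.Agent.Work.MP_02d86d_gt.Plane.Sym

/-! Reduction of an angle modulo `π / p`; the period of a sequence of angles. -/

set_option autoImplicit false

namespace MP_02d86d_gt

open Filter Topology

theorem exists_reduce {p : ℕ} (hp : 1 ≤ p) (x : ℝ) : ∃ (y : ℝ) (k : ℤ),
    x = y + k * (Real.pi / p) ∧ |y| ≤ 2 ∧ y ^ 2 ≤ 3 * Real.sin (p * x) ^ 2 := by
  have hp0 : (0 : ℝ) < p := by exact_mod_cast hp
  have hp1 : (1 : ℝ) ≤ p := by exact_mod_cast hp
  have hpi := Real.pi_pos
  have hpi4 := Real.pi_le_four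
  set k : ℤ := round (x * p / Real.pi) with hk
  set y : ℝ := x - k * (Real.pi / p) with hy
  have h1 : |x * p / Real.pi - k| ≤ 1 / 2 := abs_sub_round _
  have h2 : p * y = Real.pi * (x * p / Real.pi - k) := by
    rw [hy]
    field_simp
  have h3 : |p * y| ≤ Real.pi / 2 := by
    rw [h2, abs_mul, abs_of_pos hpi]
    nlinarith
  have h4 : |y| ≤ |p * y| := by
    rw [abs_mul, abs_of_pos hp0]
    nlinarith [abs_nonneg y]
  refine ⟨y, k, by rw [hy]; ring, by linarith, ?_⟩
  have h5 : Real.sin (p * x) ^ 2 = Real.sin (p * y) ^ 2 := by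
    have e1 : p * x = p * y + k * Real.pi := by
      rw [hy]
      field_simp
      ring
    rw [e1, Real.sin_add_int_mul_pi, mul_pow]
    have e2 : ((-1 : ℝ) ^ k) ^ 2 = 1 := by
      rw [← zpow_natCast, ← zpow_mul, mul_comm, zpow_mul]
      norm_num
    rw [e2, one_mul]
  have h6 : 2 / Real.pi * |p * y| ≤ |Real.sin (p * y)| := by
    rcases le_total 0 (p * y) with h | h
    · rw [abs_of_nonneg h] at h3 ⊢
      exact (Real.mul_le_sin h h3).trans (le_abs_self _)
    · rw [abs_of_nonpos h] at h3 ⊢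
      have := Real.mul_le_sin (x := -(p * y)) (by linarith) h3
      rw [Real.sin_neg] at this
      exact this.trans (neg_le_abs _)
  have h7 : |y| ≤ Real.pi / 2 * |Real.sin (p * y)| := by
    have h8 : Real.pi / 2 * (2 / Real.pi * |p * y|) ≤ Real.pi / 2 * |Real.sin (p * y)| :=
      mul_le_mul_of_nonneg_left h6 (by positivity)
    have h9 : Real.pi / 2 * (2 / Real.pi * |p * y|) = |p * y| := by field_simp
    linarith
  have h8 : y ^ 2 ≤ (Real.pi / 2) ^ 2 * Real.sin (p * y) ^ 2 := by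
    rw [← sq_abs y, ← sq_abs (Real.sin (p * y)), ← mul_pow]
    exact pow_le_pow_left₀ (abs_nonneg _) h7 2
  rw [h5]
  have h9 : (Real.pi / 2) ^ 2 ≤ 3 := by
    have := Real.pi_lt_d2
    nlinarith
  exact h8.trans (mul_le_mul_of_nonneg_right h9 (sq_nonneg _))

theorem sin_sub_sq_le (x y : ℝ) :
    Real.sin (x - y) ^ 2 ≤ 2 * Real.sin x ^ 2 + 2 * Real.sin y ^ 2 := by
  rw [Real.sin_sub]
  have h1 : Real.cos x ^ 2 ≤ 1 := Real.cos_sq_le_one x
  have h2 : Real.cos y ^ 2 ≤ 1 := Real.cos_sq_le_one y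
  have h3 : (Real.sin x * Real.cos y) ^ 2 ≤ Real.sin x ^ 2 := by
    rw [mul_pow]
    nlinarith [sq_nonneg (Real.sin x)]
  have h4 : (Real.cos x * Real.sin y) ^ 2 ≤ Real.sin y ^ 2 := by
    rw [mul_pow]
    nlinarith [sq_nonneg (Real.sin y)]
  nlinarith [sq_nonneg (Real.sin x * Real.cos y + Real.cos x * Real.sin y)]

theorem exists_period (d : ℕ → ℝ) : ∃ p : ℕ, ∀ m : ℕ,
    (Summable fun i => Real.sin (m * d i) ^ 2) ↔ p ∣ m := by
  classical
  set H : ℕ → Prop := fun m => Summable fun i => Real.sin (m * d i) ^ 2 with hH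
  have hmul : ∀ m k : ℕ, H m → H (k * m) := by
    intro m k h
    have := summable_sin_mul (m := (m : ℝ)) (x := d) h k
    refine this.congr fun i => ?_
    push_cast
    rfl
  have hsub : ∀ a b : ℕ, b ≤ a → H a → H b → H (a - b) := by
    intro a b hab ha hb
    refine Summable.of_nonneg_of_le (fun i => sq_nonneg _) (fun i => ?_)
      ((ha.mul_left 2).add (hb.mul_left 2))
    have e1 : ((a - b : ℕ) : ℝ) * d i = a * d i - b * d i := by
      rw [Nat.cast_sub hab]
      ring
    rw [e1]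
    exact sin_sub_sq_le _ _
  by_cases hex : ∃ m : ℕ, 0 < m ∧ H m
  · refine ⟨Nat.find hex, fun m => ⟨fun hm => ?_, fun hm => ?_⟩⟩
    · have hp := Nat.find_spec hex
      have h1 : H (m % Nat.find hex) := by
        have e : m % Nat.find hex = m - m / Nat.find hex * Nat.find hex := by
          have := Nat.mod_add_div m (Nat.find hex)
          rw [mul_comm] at this
          omega
        rw [e]
        exact hsub _ _ (Nat.div_mul_le_self _ _) hm (hmul _ _ hp.2)
      have h2 : m % Nat.find hex < Nat.find hex := Nat.mod_lt _ hp.1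
      rcases Nat.eq_zero_or_pos (m % Nat.find hex) with h3 | h3
      · exact Nat.dvd_of_mod_eq_zero h3
      · exact absurd ⟨h3, h1⟩ (Nat.find_min hex h2)
    · obtain ⟨k, rfl⟩ := hm
      rw [mul_comm]
      exact hmul _ _ (Nat.find_spec hex).2
  · refine ⟨0, fun m => ⟨fun hm => ?_, fun hm => ?_⟩⟩
    · rw [Nat.zero_dvd]
      by_contra h
      exact hex ⟨m, Nat.pos_of_ne_zero h, hm⟩
    · rw [Nat.zero_dvd] at hm
      subst hm
      simp

end MP_02d86d_gt
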