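import Pool.Agent.Work.MP_02d86d_gt.Dih.Rot

/-! One symmetrization step for a body which is symmetric up to a small rotation. -/

set_option autoImplicit false

namespace MP_02d86d_gt

open MeasureTheory Set Filter Topology Metric

/-- The symmetral lies in the Minkowski average of the body and of its mirror image. -/
theorem st_half {n : ℕ} {u : EuclideanSpace ℝ (Fin n)} (hu : ‖u‖ = 1)
    {K : Set (EuclideanSpace ℝ (Fin n))} (hK : IsCompact K) (hc : Convex ℝ K)
    {x : EuclideanSpace ℝ (Fin n)} (hx : x ∈ st u K) :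
    ∃ p ∈ K, ∃ q ∈ K, x = (1 / 2 : ℝ) • (p + rho u q) := by
  obtain ⟨t, y, rfl⟩ := exists_pt hu x
  obtain ⟨a, b, ha, hb, hy⟩ := (mem_st_iff hu hK hc t y).1 hx
  have hch := convex_chord u hc t
  have hmem : ∀ s, a ≤ s → s ≤ b → pt u t s ∈ K := by
    intro s h1 h2
    have hs : s ∈ segment ℝ a b := by
      rw [segment_eq_Icc (h1.trans h2)]
      exact ⟨h1, h2⟩
    exact hch.segment_subset ha hb hs
  have hy' := abs_le.1 (show |y| ≤ (b - a) / 2 by linarith)
  refine ⟨pt u t ((a + b) / 2 + y), hmem _ (by linarith [hy'.1]) (by linarith [hy'.2]),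
    pt u t ((a + b) / 2 - y), hmem _ (by linarith [hy'.2]) (by linarith [hy'.1]), ?_⟩
  rw [rho_pt hu]
  unfold pt
  module

/-- The volume of a shell. -/
theorem volume_shell {M A : Set (EuclideanSpace ℝ (Fin 2))} (hM : IsCompact M)
    (hA : IsCompact A) {l : ℝ} (hl : 1 ≤ l) (hv : volume A = volume M)
    (hs : A ⊆ (fun z => l • z) '' M) :
    volume ((fun z : EuclideanSpace ℝ (Fin 2) => l • z) '' M \ A) =
      ENNReal.ofReal (l ^ 2 - 1) * volume M := by
  have hMf : volume M ≠ ⊤ := hM.measure_lt_top.ne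
  have h1 : volume ((fun z : EuclideanSpace ℝ (Fin 2) => l • z) '' M) =
      ENNReal.ofReal (l ^ 2) * volume M := by
    have h := Measure.addHaar_smul (volume : Measure (EuclideanSpace ℝ (Fin 2))) l M
    rw [finrank_euclideanSpace_fin, abs_of_nonneg (by positivity)] at h
    exact h
  rw [measure_sdiff hs hA.measurableSet.nullMeasurableSet (by rw [hv]; exact hMf), h1, hv]
  have h2 : ENNReal.ofReal (l ^ 2) = ENNReal.ofReal (l ^ 2 - 1) + 1 := by
    rw [← ENNReal.ofReal_one, ← ENNReal.ofReal_add (by nlinarith) zero_le_one]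
    congr 1
    ring
  rw [h2, add_mul, one_mul, ENNReal.add_sub_cancel_right hMf]

/-- One step. -/
theorem st_rot {M : Set (EuclideanSpace ℝ (Fin 2))} (hM : IsCompact M) (hc : Convex ℝ M)
    (h0 : (0 : EuclideanSpace ℝ (Fin 2)) ∈ interior M) {C : ℝ} (hC : 0 ≤ C)
    (h : ∀ d : ℝ, ∀ x ∈ M, ∀ y ∈ M, ∃ z ∈ M,
      (1 / 2 : ℝ) • (rot (-d) x + rot d y) = (1 + C * d ^ 2) • z) {t : ℝ}
    (hs : rho (dir t) '' M = M) {d : ℝ} (hd : |d| ≤ 2) :
    volume (symmDiff (st (dir t) (rot (-d) '' M)) M) ≤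
      ENNReal.ofReal ((4 * C + 8 * C ^ 2) * d ^ 2) * volume M := by
  have hu := norm_dir t
  have hK : IsCompact (rot (-d) '' M) := hM.image (rot (-d)).continuous
  have hKc : Convex ℝ (rot (-d) '' M) := hc.linear_image (rot (-d)).toLinearEquiv.toLinearMap
  set l : ℝ := 1 + C * d ^ 2 with hl
  have hl1 : 1 ≤ l := by
    have : 0 ≤ C * d ^ 2 := by positivity
    linarith
  set A := st (dir t) (rot (-d) '' M) with hA
  have hAc : IsCompact A := isCompact_st hu hK hKc
  have hAv : volume A = volume M := by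
    rw [hA, volume_st hu hK hKc]
    have h1 := (rot (-d)).measurePreserving.measure_preimage_emb
      (rot (-d)).toHomeomorph.measurableEmbedding (rot (-d) '' M)
    rw [preimage_image_eq M (rot (-d)).injective] at h1
    exact h1.symm
  have hAs : A ⊆ (fun z => l • z) '' M := by
    intro x hx
    obtain ⟨p, ⟨p', hp', rfl⟩, q, ⟨q', hq', rfl⟩, rfl⟩ := st_half hu hK hKc hx
    have hq'' : rho (dir t) q' ∈ M := by
      rw [← hs]
      exact ⟨q', hq', rfl⟩
    obtain ⟨z, hz, e⟩ := h d p' hp' _ hq''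
    refine ⟨z, hz, ?_⟩
    rw [rho_rot, neg_neg]
    exact e.symm
  have hMs : M ⊆ (fun z => l • z) '' M := by
    intro x hx
    refine ⟨l⁻¹ • x, ?_, ?_⟩
    · have h1 := hc (interior_subset h0) hx (sub_nonneg.2 (inv_le_one_of_one_le₀ hl1))
        (inv_nonneg.2 (by linarith : (0 : ℝ) ≤ l)) (by ring)
      rwa [smul_zero, zero_add] at h1
    · simp only
      rw [smul_smul, mul_inv_cancel₀ (by linarith : l ≠ 0), one_smul]
  have h1 := volume_shell hM hAc hl1 hAv hAs
  have h2 := volume_shell hM hM hl1 rfl hMs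
  have h3 : volume (symmDiff A M) ≤ ENNReal.ofReal (l ^ 2 - 1) * volume M +
      ENNReal.ofReal (l ^ 2 - 1) * volume M := by
    rw [symmDiff_def]
    refine (measure_union_le _ _).trans (add_le_add ?_ ?_)
    · rw [← h2]
      exact measure_mono (sdiff_subset_sdiff_left hAs)
    · rw [← h1]
      exact measure_mono (sdiff_subset_sdiff_left hMs)
  refine h3.trans ?_
  rw [← add_mul, ← ENNReal.ofReal_add (by nlinarith) (by nlinarith)]
  gcongr
  have h4 : d ^ 2 ≤ 4 := by
    have := abs_le.1 hd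
    nlinarith
  have h5 : 0 ≤ C ^ 2 * d ^ 2 := by positivity
  have h6 : C ^ 2 * d ^ 2 * d ^ 2 ≤ C ^ 2 * d ^ 2 * 4 := mul_le_mul_of_nonneg_left h4 h5
  rw [hl]
  nlinarith

end MP_02d86d_gt
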