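import Pool.Agent.Work.MP_02d86d_gt.B.Mono
import Pool.Agent.Work.MP_02d86d_gt.Dih.Step
import Pool.Agent.Work.MP_02d86d_gt.Dih.Contr
import Pool.Agent.Work.MP_02d86d_gt.Dih.Angle

/-! A body with dihedral symmetry is followed by the symmetrals of its rotated copies. -/

set_option autoImplicit false

namespace MP_02d86d_gt

open MeasureTheory Set Filter Topology Metric

theorem rot_image_image (a b : ℝ) (M : Set (EuclideanSpace ℝ (Fin 2))) :
    rot a '' (rot b '' M) = rot (a + b) '' M := by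
  rw [image_image]
  simp only [rot_rot]

theorem rot_zero_image (M : Set (EuclideanSpace ℝ (Fin 2))) : rot 0 '' M = M := by
  simp only [rot_zero, image_id']

theorem rot_zmul {M : Set (EuclideanSpace ℝ (Fin 2))} {c : ℝ} (h : rot c '' M = M) (k : ℤ) :
    rot (k * c) '' M = M := by
  have h2 : rot (-c) '' M = M := by
    have h3 : rot (-c) '' (rot c '' M) = M := by
      rw [rot_image_image, neg_add_cancel, rot_zero_image]
    rwa [h] at h3
  induction k using Int.induction_on with
  | zero => simp [rot_zero_image]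
  | succ i ih =>
    have e : (((i : ℤ) + 1 : ℤ) : ℝ) * c = c + ((i : ℤ) : ℝ) * c := by push_cast; ring
    rw [e, ← rot_image_image, ih, h]
  | pred i ih =>
    have e : ((-(i : ℤ) - 1 : ℤ) : ℝ) * c = -c + ((-(i : ℤ) : ℤ) : ℝ) * c := by push_cast; ring
    rw [e, ← rot_image_image, ih, h2]

/-- The rotated copy is symmetric about the rotated axis. -/
theorem rho_rot_image {A : Set (EuclideanSpace ℝ (Fin 2))} {φ : ℝ}
    (h : rho (dir φ) '' A = A) (a : ℝ) : rho (dir (φ + a)) '' (rot a '' A) = rot a '' A := by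
  have e : rho (dir (φ + a)) '' (rot a '' A) = rot a '' (rho (dir φ) '' A) := by
    rw [image_image, image_image]
    simp only [rho_dir_add']
  rw [e, h]

/-- Change of the axis. -/
theorem rho_axis {A : Set (EuclideanSpace ℝ (Fin 2))} {φ a : ℝ}
    (h : rho (dir φ) '' A = A) (h2 : rot (2 * a) '' A = A) : rho (dir (φ + a)) '' A = A := by
  have e : rho (dir (φ + a)) '' A = rot (2 * a) '' (rho (dir φ) '' A) := by
    rw [image_image]
    simp only [rho_dir_add]
  rw [e, h, h2]

theorem convex_rot {M : Set (EuclideanSpace ℝ (Fin 2))} (hc : Convex ℝ M) (b : ℝ) :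
    Convex ℝ (rot b '' M) := hc.linear_image (rot b).toLinearEquiv.toLinearMap

theorem interior_rot {M : Set (EuclideanSpace ℝ (Fin 2))}
    (h0 : (0 : EuclideanSpace ℝ (Fin 2)) ∈ interior M) (b : ℝ) :
    (0 : EuclideanSpace ℝ (Fin 2)) ∈ interior (rot b '' M) := by
  have h1 : (rot b).toHomeomorph '' interior M = interior ((rot b).toHomeomorph '' M) :=
    (rot b).toHomeomorph.image_interior M
  have h2 : (rot b).toHomeomorph '' M = rot b '' M := rfl
  rw [h2] at h1
  rw [← h1]
  exact ⟨0, h0, (rot b).map_zero⟩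

theorem sub_rot {M : Set (EuclideanSpace ℝ (Fin 2))} {R : ℝ} (hR : M ⊆ closedBall 0 R) (b : ℝ) :
    rot b '' M ⊆ closedBall 0 R := by
  rintro _ ⟨x, hx, rfl⟩
  have := hR hx
  rw [mem_closedBall_zero_iff] at this ⊢
  rwa [(rot b).norm_map]

/-- One step. -/
theorem follow_step {M : Set (EuclideanSpace ℝ (Fin 2))} (hM : IsCompact M) (hc : Convex ℝ M)
    (h0 : (0 : EuclideanSpace ℝ (Fin 2)) ∈ interior M) {C : ℝ} (hC : 0 ≤ C)
    (h : ∀ d : ℝ, ∀ x ∈ M, ∀ y ∈ M, ∃ z ∈ M,
      (1 / 2 : ℝ) • (rot (-d) x + rot d y) = (1 + C * d ^ 2) • z) {b y ψ : ℝ}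
    (hs : rho (dir ψ) '' (rot (b + y) '' M) = rot (b + y) '' M) (hy : |y| ≤ 2) :
    volume (symmDiff (st (dir ψ) (rot b '' M)) (rot (b + y) '' M)) ≤
      ENNReal.ofReal ((4 * C + 8 * C ^ 2) * y ^ 2) * volume M := by
  have hh : ∀ d : ℝ, ∀ x ∈ rot (b + y) '' M, ∀ z ∈ rot (b + y) '' M, ∃ w ∈ rot (b + y) '' M,
      (1 / 2 : ℝ) • (rot (-d) x + rot d z) = (1 + C * d ^ 2) • w := by
    rintro d _ ⟨x, hx, rfl⟩ _ ⟨z, hz, rfl⟩
    obtain ⟨w, hw, e⟩ := h d x hx z hz
    refine ⟨_, ⟨w, hw, rfl⟩, ?_⟩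
    have e1 : rot (-d) (rot (b + y) x) = rot (b + y) (rot (-d) x) := by
      rw [rot_rot, rot_rot, add_comm]
    have e2 : rot d (rot (b + y) z) = rot (b + y) (rot d z) := by
      rw [rot_rot, rot_rot, add_comm]
    rw [e1, e2, ← map_add, ← (rot (b + y)).map_smul, e, (rot (b + y)).map_smul]
  have h1 := st_rot (hM.image (rot (b + y)).continuous) (convex_rot hc _) (interior_rot h0 _) hC
    hh hs hy
  rw [rot_image_image, volume_isom] at h1
  have e : -y + (b + y) = b := by ring
  rwa [e] at h1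

theorem symmDiff_volume_tri (A B D : Set (EuclideanSpace ℝ (Fin 2))) :
    volume (symmDiff A D) ≤ volume (symmDiff A B) + volume (symmDiff B D) :=
  (measure_mono (symmDiff_triangle A B D)).trans (measure_union_le _ _)

theorem follow {θ : ℕ → ℝ} {p : ℕ} (hp : 1 ≤ p)
    (hs : Summable fun i => Real.sin (p * (θ (i + 1) - θ i)) ^ 2)
    {M : Set (EuclideanSpace ℝ (Fin 2))} (hM : IsCompact M) (hc : Convex ℝ M)
    (h0 : (0 : EuclideanSpace ℝ (Fin 2)) ∈ interior M) {C : ℝ} (hC : 0 ≤ C)
    (h : ∀ d : ℝ, ∀ x ∈ M, ∀ y ∈ M, ∃ z ∈ M,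
      (1 / 2 : ℝ) • (rot (-d) x + rot d y) = (1 + C * d ^ 2) • z) {t : ℝ}
    (hD : Dihed p t M) {R : ℝ} (hR : M ⊆ closedBall 0 R) {e : ENNReal} (he : 0 < e) :
    ∃ j₀ : ℕ, ∀ j, j₀ ≤ j → ∃ (K : ℕ → Set (EuclideanSpace ℝ (Fin 2))) (b : ℕ → ℝ),
      Iter R (fun i => dir (θ (j + i))) K ∧
      ∀ i, volume (symmDiff (K i) (rot (b i) '' M)) ≤ e := by
  -- the tail sums
  set g : ℕ → ℝ := fun i => Real.sin (p * (θ (i + 1) - θ i)) ^ 2 with hg
  have hv : volume M ≠ 0 := (Measure.measure_pos_of_nonempty_interior volume ⟨0, h0⟩).ne'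
  have hvt : volume M ≠ ⊤ := hM.measure_lt_top.ne
  set D : ℝ := 3 * (4 * C + 8 * C ^ 2) with hDdef
  have hD0 : 0 ≤ D := by positivity
  have t1 : Tendsto (fun j => ∑' i, g (i + j)) atTop (𝓝 0) := tendsto_sum_nat_add g
  have t2 : Tendsto (fun j => ENNReal.ofReal (D * ∑' i, g (i + j)) * volume M) atTop (𝓝 0) := by
    have t3 : Tendsto (fun j => D * ∑' i, g (i + j)) atTop (𝓝 (D * 0)) := t1.const_mul D
    have t4 := ENNReal.tendsto_ofReal t3
    rw [mul_zero, ENNReal.ofReal_zero] at t4
    have t5 := ENNReal.Tendsto.mul_const (b := volume M) t4 (Or.inr hvt)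
    rwa [zero_mul] at t5
  have t6 := t2.eventually_lt_const he
  obtain ⟨j₀, hj₀⟩ := eventually_atTop.1 t6
  refine ⟨j₀, fun j hj => ?_⟩
  have hsm := (hj₀ j hj).le
  -- the angles
  set φ : ℕ → ℝ := fun i => θ (j + (i - 1)) with hφ
  choose y k hy1 hy2 hy3 using fun i => exists_reduce hp (φ (i + 1) - φ i)
  set b : ℕ → ℝ := fun i => (θ j - t) + ∑ q ∈ Finset.range i, y q with hb
  have hb0 : b 0 = θ j - t := by simp [hb]
  have hbs : ∀ i, b (i + 1) = b i + y i := by
    intro i
    simp only [hb, Finset.sum_range_succ]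
    ring
  have hφ0 : φ 0 = θ j := by simp [hφ]
  have hφs : ∀ i, φ (i + 1) = θ (j + i) := by intro i; simp [hφ]
  -- the symmetry
  have hsym : ∀ i, rho (dir (φ i)) '' (rot (b i) '' M) = rot (b i) '' M := by
    intro i
    induction i with
    | zero =>
      have h1 := rho_rot_image hD.2 (θ j - t)
      rw [hb0, hφ0]
      have e1 : t + (θ j - t) = θ j := by ring
      rwa [e1] at h1
    | succ i ih =>
      have h1 := rho_rot_image ih (y i)
      rw [rot_image_image, add_comm (y i), ← hbs i] at h1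
      have h2 : rot (2 * (k i * (Real.pi / p))) '' (rot (b (i + 1)) '' M) =
          rot (b (i + 1)) '' M := by
        rw [rot_image_image, add_comm, ← rot_image_image]
        have e1 : (2 * (k i * (Real.pi / p)) : ℝ) = k i * (2 * Real.pi / p) := by ring
        rw [e1, rot_zmul hD.1]
      have h3 := rho_axis h1 h2
      have e2 : φ i + y i + k i * (Real.pi / p) = φ (i + 1) := by
        linarith [hy1 i]
      rwa [e2] at h3
  refine ⟨seqSt (fun i => dir (θ (j + i))) (rot (b 0) '' M), b, ?_, ?_⟩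
  · exact iter_seqSt (fun i => norm_dir _) (hM.image (rot (b 0)).continuous) (convex_rot hc _)
      (sub_rot hR _) (by rwa [volume_isom])
  · have hI : Iter R (fun i => dir (θ (j + i)))
        (seqSt (fun i => dir (θ (j + i))) (rot (b 0) '' M)) :=
      iter_seqSt (fun i => norm_dir _) (hM.image (rot (b 0)).continuous) (convex_rot hc _)
        (sub_rot hR _) (by rwa [volume_isom])
    set f : ℕ → ℝ := fun i => Real.sin (p * (φ (i + 1) - φ i)) ^ 2 with hf
    have hmain : ∀ i, volume (symmDiff (seqSt (fun i => dir (θ (j + i))) (rot (b 0) '' M) i)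
        (rot (b i) '' M)) ≤
        ENNReal.ofReal (D * ∑ q ∈ Finset.range i, f q) * volume M := by
      intro i
      induction i with
      | zero =>
        have e1 : seqSt (fun i => dir (θ (j + i))) (rot (b 0) '' M) 0 = rot (b 0) '' M := rfl
        rw [e1, symmDiff_self]
        simp
      | succ i ih =>
        have e1 : seqSt (fun i => dir (θ (j + i))) (rot (b 0) '' M) (i + 1) =
          st (dir (θ (j + i))) (seqSt (fun i => dir (θ (j + i))) (rot (b 0) '' M) i) := rfl
        rw [e1]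
        refine (symmDiff_volume_tri _ (st (dir (θ (j + i))) (rot (b i) '' M)) _).trans ?_
        have h1 := symmDiff_st_le (norm_dir (θ (j + i))) (hI.cpt i) (hI.cvx i)
          (hM.image (rot (b i)).continuous) (convex_rot hc _)
        have h2 : rho (dir (θ (j + i))) '' (rot (b i + y i) '' M) = rot (b i + y i) '' M := by
          have := hsym (i + 1)
          rwa [hφs, hbs] at this
        have h3 := follow_step hM hc h0 hC h h2 (hy2 i)
        rw [← hbs] at h3
        refine (add_le_add (h1.trans ih) h3).trans ?_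
        rw [Finset.sum_range_succ, mul_add, ENNReal.ofReal_add, add_mul (ENNReal.ofReal _)]
        · refine add_le_add le_rfl (mul_le_mul_left (ENNReal.ofReal_le_ofReal ?_) _)
          have h4 : (y i) ^ 2 ≤ 3 * f i := hy3 i
          have h5 : (0 : ℝ) ≤ 4 * C + 8 * C ^ 2 := by positivity
          calc (4 * C + 8 * C ^ 2) * y i ^ 2 ≤ (4 * C + 8 * C ^ 2) * (3 * f i) :=
                mul_le_mul_of_nonneg_left h4 h5
            _ = D * f i := by rw [hDdef]; ring
        · exact mul_nonneg hD0 (Finset.sum_nonneg fun q _ => sq_nonneg _)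
        · exact mul_nonneg hD0 (sq_nonneg _)
    intro i
    refine (hmain i).trans (le_trans ?_ hsm)
    gcongr
    have hgs : Summable fun i => g (i + j) := (summable_nat_add_iff j).2 hs
    have hfs : ∀ q, f (q + 1) = g (q + j) := by
      intro q
      simp only [hf, hg, hφs]
      have e1 : j + (q + 1) = q + j + 1 := by ring
      have e2 : j + q = q + j := by ring
      rw [e1, e2]
    have hf0 : f 0 = 0 := by
      simp only [hf]
      have e1 : φ (0 + 1) - φ 0 = 0 := by
        rw [hφs 0, sub_self]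
      rw [e1]
      simp
    cases i with
    | zero =>
      simp only [Finset.range_zero, Finset.sum_empty]
      exact tsum_nonneg fun q => sq_nonneg _
    | succ m =>
      rw [Finset.sum_range_succ', hf0, add_zero]
      simp only [hfs]
      exact hgs.sum_le_tsum _ fun q _ => sq_nonneg _

end MP_02d86d_gt
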