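import Pool.Agent.Work.MP_02d86d_gt.Dih.Rot

/-! A convex body with dihedral symmetry has a centre in its interior. -/

set_option autoImplicit false

namespace MP_02d86d_gt

open MeasureTheory Set Filter Topology Metric

theorem image_interior_isom (f : EuclideanSpace ℝ (Fin 2) ≃ₗᵢ[ℝ] EuclideanSpace ℝ (Fin 2))
    {L : Set (EuclideanSpace ℝ (Fin 2))} (h : f '' L = L) {x : EuclideanSpace ℝ (Fin 2)}
    (hx : x ∈ interior L) : f x ∈ interior L := by
  have h1 : f '' interior L = interior (f '' L) := f.toHomeomorph.image_interior L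
  rw [h] at h1
  rw [← h1]
  exact mem_image_of_mem _ hx

theorem image_translate_isom (f : EuclideanSpace ℝ (Fin 2) ≃ₗᵢ[ℝ] EuclideanSpace ℝ (Fin 2))
    {L : Set (EuclideanSpace ℝ (Fin 2))} (h : f '' L = L) {c : EuclideanSpace ℝ (Fin 2)}
    (hc : f c = c) : f '' ((fun x => x - c) '' L) = (fun x => x - c) '' L := by
  rw [← image_comp]
  have h1 : (f ∘ fun x => x - c) = (fun x => x - c) ∘ f := by
    funext x
    simp [map_sub, hc]
  rw [h1, image_comp, h]

theorem recenter {L : Set (EuclideanSpace ℝ (Fin 2))} (hc : Convex ℝ L)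
    (hi : (interior L).Nonempty) {p : ℕ} (hp : 1 ≤ p) {t : ℝ} (h : Dihed p t L) :
    ∃ c : EuclideanSpace ℝ (Fin 2),
      (0 : EuclideanSpace ℝ (Fin 2)) ∈ interior ((fun x => x - c) '' L) ∧
        Dihed p t ((fun x => x - c) '' L) := by
  obtain ⟨x, hx⟩ := hi
  obtain ⟨hr, hs⟩ := h
  have hp0 : (p : ℝ) ≠ 0 := by positivity
  set a : ℝ := 2 * Real.pi / p with ha
  have hf : ∀ k : ℕ, rot (k * a) x ∈ interior L := by
    intro k
    induction k with
    | zero => simpa [rot_zero] using hx
    | succ k ih =>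
      have := image_interior_isom (rot a) hr ih
      rw [rot_rot] at this
      have e : a + (k : ℝ) * a = ((k + 1 : ℕ) : ℝ) * a := by push_cast; ring
      rwa [e] at this
  set c1 : EuclideanSpace ℝ (Fin 2) :=
    ∑ k ∈ Finset.range p, (1 / p : ℝ) • rot (k * a) x with hc1
  have hconv : Convex ℝ (interior L) := hc.interior
  have h1 : c1 ∈ interior L := by
    apply hconv.sum_mem
    · intro i _
      positivity
    · rw [Finset.sum_const, Finset.card_range, nsmul_eq_mul]
      field_simp
    · intro i _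
      exact hf i
  have hper : rot (p * a) x = rot (((0 : ℕ) : ℝ) * a) x := by
    have e : (p : ℝ) * a = 2 * Real.pi := by
      rw [ha]; field_simp
    rw [e]
    apply zc_inj
    rw [zc_rot, zc_rot]
    push_cast
    rw [Complex.exp_two_pi_mul_I]
    simp
  have h2 : rot a c1 = c1 := by
    have e1 : rot a c1 = ∑ k ∈ Finset.range p, (1 / p : ℝ) • rot (((k + 1 : ℕ) : ℝ) * a) x := by
      rw [hc1, map_sum]
      refine Finset.sum_congr rfl fun k _ => ?_
      rw [map_smul, rot_rot]
      congr 2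
      push_cast
      ring_nf
    have e2 : ∑ k ∈ Finset.range (p + 1), (1 / p : ℝ) • rot ((k : ℝ) * a) x =
        ∑ k ∈ Finset.range p, (1 / p : ℝ) • rot (((k + 1 : ℕ) : ℝ) * a) x +
          (1 / p : ℝ) • rot (((0 : ℕ) : ℝ) * a) x :=
      Finset.sum_range_succ' (fun k : ℕ => (1 / p : ℝ) • rot ((k : ℝ) * a) x) p
    have e3 : ∑ k ∈ Finset.range (p + 1), (1 / p : ℝ) • rot ((k : ℝ) * a) x =
        ∑ k ∈ Finset.range p, (1 / p : ℝ) • rot ((k : ℝ) * a) x +
          (1 / p : ℝ) • rot ((p : ℝ) * a) x :=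
      Finset.sum_range_succ (fun k : ℕ => (1 / p : ℝ) • rot ((k : ℝ) * a) x) p
    rw [e3, hper] at e2
    rw [e1, hc1]
    exact (add_right_cancel e2).symm
  set c : EuclideanSpace ℝ (Fin 2) := (1 / 2 : ℝ) • c1 + (1 / 2 : ℝ) • rho (dir t) c1 with hcdef
  have h3 : c ∈ interior L :=
    hconv h1 (image_interior_isom (rho (dir t)) hs h1) (by norm_num) (by norm_num) (by norm_num)
  have h4 : rot a (rho (dir t) c1) = rho (dir t) c1 := by
    have e := rho_rot t (-a) c1
    rw [neg_neg] at e
    rw [← e]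
    have e2 : rot (-a) c1 = c1 := by
      conv_lhs => rw [← h2]
      rw [rot_rot]
      simp [rot_zero]
    rw [e2]
  have h5 : rot a c = c := by
    rw [hcdef, map_add, map_smul, map_smul, h2, h4]
  have h6 : rho (dir t) c = c := by
    rw [hcdef, map_add, map_smul, map_smul, rho_rho, add_comm]
  refine ⟨c, ?_, image_translate_isom (rot a) hr h5, image_translate_isom (rho (dir t)) hs h6⟩
  have h7 : (fun x => x - c) '' interior L = interior ((fun x => x - c) '' L) :=
    (Homeomorph.subRight c).image_interior L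
  rw [← h7]
  exact ⟨c, h3, by simp⟩

end MP_02d86d_gt
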