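import Pool.Agent.Work.MP_02d86d_gt.NDim.ReflN
import Pool.Agent.Work.MP_02d86d_gt.Plane.Modes

/-! Limits of plane sets with an axis of symmetry. -/

set_option autoImplicit false

namespace MP_02d86d_gt

open MeasureTheory Set Filter Topology Metric

theorem refl_of_limit {K : ℕ → Set (EuclideanSpace ℝ (Fin 2))}
    {L : Set (EuclideanSpace ℝ (Fin 2))} (hK : ∀ i, (K i).Nonempty) (hL : L.Nonempty)
    (cK : ∀ i, IsCompact (K i)) (cL : IsCompact L)
    (h : Tendsto (fun i => hausdorffDist (K i) L) atTop (𝓝 0)) (t : ℕ → ℝ)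
    (hs : ∀ i, rho (dir (t i)) '' K i = K i) : ∃ a : ℝ, rho (dir a) '' L = L := by
  obtain ⟨v, hv, hvL⟩ := refl_of_limit_n hK hL cK cL h (fun i => norm_dir (t i)) hs
  obtain ⟨a, ha⟩ := exists_dir v
  rw [hv, one_smul] at ha
  exact ⟨a, by rw [← ha]; exact hvL⟩

end MP_02d86d_gt
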