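import Pool.Agent.Work.MP_02d86d_gt.Main
import Pool.Agent.Work.MP_02d86d_gt.Plane.Bump
import Pool.Agent.Work.MP_02d86d_gt.Plane.Modes

/-! Rotations of the plane and dihedral symmetry. -/

set_option autoImplicit false

namespace MP_02d86d_gt

open MeasureTheory Set Filter Topology Metric

/-- The rotation with angle `a`. -/
noncomputable def rot (a : ℝ) : EuclideanSpace ℝ (Fin 2) ≃ₗᵢ[ℝ] EuclideanSpace ℝ (Fin 2) :=
  brot (a / 2)

theorem zc_rot (a : ℝ) (x : EuclideanSpace ℝ (Fin 2)) :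
    zc (rot a x) = Complex.exp (a * Complex.I) * zc x := by
  unfold rot
  rw [zc_brot]
  push_cast
  ring_nf

theorem rot_zero (x : EuclideanSpace ℝ (Fin 2)) : rot 0 x = x := by
  apply zc_inj
  rw [zc_rot]
  simp

theorem rot_rot (a b : ℝ) (x : EuclideanSpace ℝ (Fin 2)) : rot a (rot b x) = rot (a + b) x := by
  apply zc_inj
  rw [zc_rot, zc_rot, zc_rot, ← mul_assoc, ← Complex.exp_add]
  push_cast
  ring_nf

theorem rot_symm (a : ℝ) (x : EuclideanSpace ℝ (Fin 2)) : (rot a).symm x = rot (-a) x := by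
  rw [LinearIsometryEquiv.symm_apply_eq, rot_rot]
  simp [rot_zero]

theorem rho_rot (t a : ℝ) (x : EuclideanSpace ℝ (Fin 2)) :
    rho (dir t) (rot a x) = rot (-a) (rho (dir t) x) := by
  apply zc_inj
  rw [zc_rho, zc_rot, zc_rot, zc_rho, map_mul, ← Complex.exp_conj, map_mul, Complex.conj_ofReal,
    Complex.conj_I]
  have : ((-a : ℝ) : ℂ) * Complex.I = (a : ℂ) * -Complex.I := by push_cast; ring
  rw [this]
  ring

theorem rho_dir_add (t a : ℝ) (x : EuclideanSpace ℝ (Fin 2)) :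
    rho (dir (t + a)) x = rot (2 * a) (rho (dir t) x) := by
  apply zc_inj
  rw [zc_rho, zc_rot, zc_rho]
  have : (2 : ℂ) * ((t + a : ℝ) : ℂ) * Complex.I =
      ((2 * a : ℝ) : ℂ) * Complex.I + 2 * t * Complex.I := by push_cast; ring
  rw [this, Complex.exp_add]
  ring

/-- The rotated reflection. -/
theorem rho_dir_add' (t a : ℝ) (x : EuclideanSpace ℝ (Fin 2)) :
    rho (dir (t + a)) (rot a x) = rot a (rho (dir t) x) := by
  rw [rho_dir_add, rho_rot, rot_rot]
  ring_nf

/-- In coordinates. -/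
theorem rot_apply (a : ℝ) (x : EuclideanSpace ℝ (Fin 2)) :
    rot a x = !₂[Real.cos a * x 0 - Real.sin a * x 1, Real.sin a * x 0 + Real.cos a * x 1] := by
  apply zc_inj
  rw [zc_rot]
  apply Complex.ext
  · simp [zc, Complex.exp_ofReal_mul_I_re, Complex.exp_ofReal_mul_I_im]
  · simp [zc, Complex.exp_ofReal_mul_I_re, Complex.exp_ofReal_mul_I_im]
    ring

theorem inner_rot_dir (a t : ℝ) (x : EuclideanSpace ℝ (Fin 2)) :
    inner ℝ (rot a x) (dir t) = inner ℝ x (dir (t - a)) := by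
  rw [rot_apply]
  simp only [PiLp.inner_apply, dir, Fin.sum_univ_two, Real.cos_sub, Real.sin_sub]
  simp
  ring

/-- Dihedral symmetry: invariance under the rotation by `2π/p` and under one reflection. -/
def Dihed (p : ℕ) (t : ℝ) (L : Set (EuclideanSpace ℝ (Fin 2))) : Prop :=
  rot (2 * Real.pi / p) '' L = L ∧ rho (dir t) '' L = L

end MP_02d86d_gt
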