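import Pool.Agent.Work.MP_02d86d_gt.Plane.Sym
import Pool.Agent.Work.MP_02d86d_gt.Dih.Rot

/-! A convex body in the plane is determined by its modes; rotational symmetry from modes. -/

set_option autoImplicit false

namespace MP_02d86d_gt

open MeasureTheory Set Filter Topology Metric

/-- Two compact sets with the same modes have the same Fourier transform. -/
theorem Th_eq_of_modes {K L : Set (EuclideanSpace ℝ (Fin 2))} (hK : IsCompact K)
    (hL : IsCompact L) (h : ∀ (s : ℝ) (m : ℤ), mode s m K = mode s m L) : Th K = Th L := by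
  funext ξ
  obtain ⟨φ, hφ⟩ := exists_dir ξ
  set s := ‖ξ‖ with hs
  have hT : Fact (0 < 2 * Real.pi) := ⟨by positivity⟩
  have hper : Function.Periodic (fun φ : ℝ => Th K (s • dir φ) - Th L (s • dir φ))
      (2 * Real.pi) := by
    intro φ
    simp only []
    rw [dir_periodic φ]
  have hsd : Continuous fun φ : ℝ => s • dir φ := continuous_dir.const_smul s
  have hcont : Continuous fun φ : ℝ => Th K (s • dir φ) - Th L (s • dir φ) :=
    ((continuous_Th_modes hK).comp hsd).sub ((continuous_Th_modes hL).comp hsd)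
  let G : C(AddCircle (2 * Real.pi), ℂ) := ⟨hper.lift, continuous_coinduced_dom.mpr hcont⟩
  have hG : ∀ x : ℝ, G (x : AddCircle (2 * Real.pi)) = Th K (s • dir x) - Th L (s • dir x) :=
    fun x => rfl
  have hi : ∀ {M : Set (EuclideanSpace ℝ (Fin 2))} (m : ℤ), IsCompact M →
      IntervalIntegrable (fun φ : ℝ => Th M (s • dir φ) * Complex.exp (-((m : ℂ) * φ * Complex.I)))
        volume (-Real.pi) Real.pi := fun m hM =>
    (((continuous_Th_modes hM).comp hsd).mul (by fun_prop)).intervalIntegrable _ _
  have hc : ∀ m : ℤ, fourierCoeff G m = 0 := by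
    intro m
    rw [fourierCoeff_eq_intervalIntegral G m (-Real.pi)]
    have e2 : -Real.pi + 2 * Real.pi = Real.pi := by ring
    rw [e2]
    have e3 : ∫ x in (-Real.pi)..Real.pi, fourier (-m) (x : AddCircle (2 * Real.pi)) •
        G (x : AddCircle (2 * Real.pi)) = mode s m K - mode s m L := by
      unfold mode
      rw [← intervalIntegral.integral_sub (hi m hK) (hi m hL)]
      refine intervalIntegral.integral_congr fun x _ => ?_
      rw [← sub_mul, hG, fourier_coe_apply, smul_eq_mul, mul_comm]
      congr 2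
      push_cast
      have : (Real.pi : ℂ) ≠ 0 := by exact_mod_cast Real.pi_ne_zero
      field_simp
    rw [e3, h s m, sub_self, smul_zero]
  have hsum : Summable (fourierCoeff G) :=
    summable_of_ne_finset_zero (s := ∅) (fun m _ => hc m)
  have hval : ∀ x : AddCircle (2 * Real.pi), G x = 0 := by
    intro x
    have h1 := has_pointwise_sum_fourier_series_of_summable hsum x
    have h2 : HasSum (fun i : ℤ => fourierCoeff G i • fourier i x) 0 := by
      have h3 : (fun i : ℤ => fourierCoeff G i • fourier i x) = fun _ => 0 := by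
        funext i
        rw [hc i, zero_smul]
      rw [h3]
      exact hasSum_zero
    exact h1.unique h2
  have h1 := hval φ
  rw [hG] at h1
  rw [hφ]
  exact sub_eq_zero.1 h1

/-- A convex body in the plane is determined by its modes. -/
theorem eq_of_modes {K L : Set (EuclideanSpace ℝ (Fin 2))} (hK : IsCompact K)
    (hL : IsCompact L) (cK : Convex ℝ K) (cL : Convex ℝ L) (vK : volume K ≠ 0)
    (vL : volume L ≠ 0) (h : ∀ (s : ℝ) (m : ℤ), mode s m K = mode s m L) : K = L := by
  refine eq_of_F hK hL cK cL vK vL ?_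
  unfold F
  simp [Th_eq_of_modes hK hL h]

theorem rot_dir (a s φ : ℝ) : rot a (s • dir φ) = s • dir (φ + a) := by
  apply zc_inj
  rw [zc_rot, zc_smul_dir, zc_smul_dir]
  have h : ((φ + a : ℝ) : ℂ) * Complex.I = a * Complex.I + φ * Complex.I := by push_cast; ring
  rw [h, Complex.exp_add]
  ring

/-- The modes of a rotated set. -/
theorem mode_rot (a s : ℝ) (m : ℤ) (K : Set (EuclideanSpace ℝ (Fin 2))) :
    mode s m (rot a '' K) = Complex.exp (-(m * a * Complex.I)) * mode s m K := by
  unfold mode
  have h1 : ∀ φ : ℝ, Th (rot a '' K) (s • dir φ) * Complex.exp (-(m * φ * Complex.I)) =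
      (fun ψ : ℝ => Complex.exp (-(m * a * Complex.I)) *
        (Th K (s • dir ψ) * Complex.exp (-(m * ψ * Complex.I)))) (φ - a) := by
    intro φ
    simp only []
    have h2 := Th_image (rot a) K (s • dir (φ - a))
    rw [rot_dir, sub_add_cancel] at h2
    rw [h2, mul_left_comm, ← Complex.exp_add]
    congr 2
    push_cast
    ring
  have h3 := intervalIntegral.integral_comp_sub_right (a := -Real.pi) (b := Real.pi)
    (fun ψ : ℝ => Complex.exp (-(m * a * Complex.I)) *
        (Th K (s • dir ψ) * Complex.exp (-(m * ψ * Complex.I)))) a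
  rw [intervalIntegral.integral_congr fun φ _ => h1 φ, h3, ← intervalIntegral.integral_const_mul]
  have hper : Function.Periodic (fun ψ : ℝ => Complex.exp (-(m * a * Complex.I)) *
        (Th K (s • dir ψ) * Complex.exp (-(m * ψ * Complex.I)))) (2 * Real.pi) := by
    intro ψ
    simp only []
    rw [dir_periodic ψ]
    congr 2
    rw [Complex.exp_eq_exp_iff_exists_int]
    refine ⟨-m, ?_⟩
    push_cast
    ring
  have h2 := hper.intervalIntegral_add_eq (-Real.pi - a) (-Real.pi)
  have e1 : -Real.pi - a + 2 * Real.pi = Real.pi - a := by ring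
  have e2 : -Real.pi + 2 * Real.pi = Real.pi := by ring
  rw [e1, e2] at h2
  exact h2

/-- Rotational symmetry from modes. -/
theorem rot_of_modes {K : Set (EuclideanSpace ℝ (Fin 2))} (hK : IsCompact K)
    (hc : Convex ℝ K) (hv : volume K ≠ 0) {p : ℕ} (hp : 1 ≤ p)
    (h : ∀ (s : ℝ) (m : ℤ), ¬ (p : ℤ) ∣ m → mode s m K = 0) :
    rot (2 * Real.pi / p) '' K = K := by
  set ψ := rot (2 * Real.pi / p) with hψ
  have hK' : IsCompact (ψ '' K) := hK.image ψ.continuous
  have hc' : Convex ℝ (ψ '' K) := hc.linear_image ψ.toLinearEquiv.toLinearMap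
  have hv' : volume (ψ '' K) = volume K := by
    have h1 := ψ.measurePreserving.measure_preimage_emb ψ.toHomeomorph.measurableEmbedding (ψ '' K)
    rw [preimage_image_eq K ψ.injective] at h1
    exact h1.symm
  refine eq_of_modes hK' hK hc' hc (by rwa [hv']) hv fun s m => ?_
  rw [hψ, mode_rot]
  by_cases hm : (p : ℤ) ∣ m
  · obtain ⟨k, rfl⟩ := hm
    have hp0 : (p : ℂ) ≠ 0 := by
      have : p ≠ 0 := by omega
      exact_mod_cast this
    have e : Complex.exp (-(((p * k : ℤ) : ℂ) * ((2 * Real.pi / p : ℝ) : ℂ) * Complex.I)) = 1 := by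
      rw [Complex.exp_eq_one_iff]
      refine ⟨-k, ?_⟩
      push_cast
      field_simp
    rw [e, one_mul]
  · rw [h s m hm, mul_zero]

end MP_02d86d_gt
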