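import Pool.Agent.Work.MP_02d86d_gt.Dih.Rot

/-! Approximation of a planar body from inside by bodies with a semiconcave support function. -/

set_option autoImplicit false

namespace MP_02d86d_gt

open MeasureTheory Set Filter Topology Metric

/-- The support function. -/
noncomputable def hs (L : Set (EuclideanSpace ℝ (Fin 2))) (f : ℝ) : ℝ :=
  sSup ((fun y : EuclideanSpace ℝ (Fin 2) => inner ℝ y (dir f)) '' L)

theorem inner_dir (x : EuclideanSpace ℝ (Fin 2)) (f : ℝ) :
    inner ℝ x (dir f) = x 0 * Real.cos f + x 1 * Real.sin f := by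
  simp [PiLp.inner_apply, dir, Fin.sum_univ_two, mul_comm]

theorem norm_dir_sub (f g : ℝ) : ‖dir f - dir g‖ ≤ |f - g| := by
  have h1 : ‖dir f - dir g‖ ^ 2 ≤ |f - g| ^ 2 := by
    rw [norm_sub_sq_real, norm_dir, norm_dir, inner_dir, sq_abs]
    have h2 : (dir f) 0 = Real.cos f := by simp [dir]
    have h3 : (dir f) 1 = Real.sin f := by simp [dir]
    rw [h2, h3, ← Real.cos_sub]
    have h4 := Real.one_sub_sq_div_two_le_cos (x := f - g)
    linarith
  exact (pow_le_pow_iff_left₀ (norm_nonneg _) (abs_nonneg _) (by norm_num)).1 h1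

section
variable {L : Set (EuclideanSpace ℝ (Fin 2))} (hL : IsCompact L)
include hL

theorem inner_le_hs {y : EuclideanSpace ℝ (Fin 2)} (hy : y ∈ L) (f : ℝ) :
    inner ℝ y (dir f) ≤ hs L f :=
  le_csSup (hL.image (by fun_prop)).bddAbove ⟨y, hy, rfl⟩

theorem exists_hs (hne : L.Nonempty) (f : ℝ) : ∃ y ∈ L, inner ℝ y (dir f) = hs L f :=
  (hL.image (f := fun y : EuclideanSpace ℝ (Fin 2) => inner ℝ y (dir f))
    (by fun_prop)).sSup_mem (hne.image _)

theorem hs_lip (hne : L.Nonempty) {R : ℝ} (hR : ∀ y ∈ L, ‖y‖ ≤ R) (f a : ℝ) :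
    hs L f ≤ hs L (f + a) + R * |a| := by
  obtain ⟨y, hy, h⟩ := exists_hs hL hne f
  rw [← h]
  have h1 : inner ℝ y (dir f) = inner ℝ y (dir (f + a)) + inner ℝ y (dir f - dir (f + a)) := by
    rw [inner_sub_right]
    ring
  have h2 : inner ℝ y (dir f - dir (f + a)) ≤ R * |a| := by
    have h3 := norm_dir_sub f (f + a)
    rw [sub_add_cancel_left, abs_neg] at h3
    exact (real_inner_le_norm _ _).trans
      (mul_le_mul (hR y hy) h3 (norm_nonneg _) ((norm_nonneg _).trans (hR y hy)))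
  have h4 := inner_le_hs hL hy (f + a)
  linarith

theorem mem_of_hs (hc : Convex ℝ L) (hne : L.Nonempty) {x : EuclideanSpace ℝ (Fin 2)}
    (h : ∀ f, inner ℝ x (dir f) ≤ hs L f) : x ∈ L := by
  by_contra hx
  obtain ⟨v, hv, hv'⟩ := exists_norm_eq_iInf_of_complete_convex hne hL.isComplete hc x
  rw [norm_eq_iInf_iff_real_inner_le_zero hc hv] at hv'
  obtain ⟨f, hf⟩ := exists_dir (x - v)
  have h0 : 0 < ‖x - v‖ := norm_pos_iff.2 (sub_ne_zero.2 fun e => hx (e ▸ hv))
  obtain ⟨y, hy, hyf⟩ := exists_hs hL hne f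
  have h1 := hv' y hy
  rw [hf, real_inner_smul_left] at h1
  have h2 : inner ℝ (dir f) (y - v) ≤ 0 := by
    by_contra h3
    push Not at h3
    have := mul_pos h0 h3
    linarith
  rw [inner_sub_right, real_inner_comm, real_inner_comm v] at h2
  have h3 := h f
  have h4 : inner ℝ (x - v) (dir f) = ‖x - v‖ := by
    conv_lhs => rw [hf]
    rw [real_inner_smul_left, real_inner_self_eq_norm_sq, norm_dir]
    ring
  rw [inner_sub_left] at h4
  linarith

end

/-- The body with semiconcave support function. -/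
def smb (L : Set (EuclideanSpace ℝ (Fin 2))) (C : ℝ) : Set (EuclideanSpace ℝ (Fin 2)) :=
  {x | ∀ f a : ℝ, inner ℝ x (dir f) ≤ hs L (f + a) + C * a ^ 2}

theorem isClosed_smb (L : Set (EuclideanSpace ℝ (Fin 2))) (C : ℝ) : IsClosed (smb L C) := by
  have h : smb L C = ⋂ (f : ℝ) (a : ℝ), {x : EuclideanSpace ℝ (Fin 2) |
      inner ℝ x (dir f) ≤ hs L (f + a) + C * a ^ 2} := by
    ext x
    simp [smb]
  rw [h]
  exact isClosed_iInter fun f => isClosed_iInter fun a => isClosed_le (by fun_prop)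
    continuous_const

theorem convex_smb (L : Set (EuclideanSpace ℝ (Fin 2))) (C : ℝ) : Convex ℝ (smb L C) := by
  intro x hx y hy a b ha hb hab f c
  rw [inner_add_left, real_inner_smul_left, real_inner_smul_left]
  have h1 := mul_le_mul_of_nonneg_left (hx f c) ha
  have h2 := mul_le_mul_of_nonneg_left (hy f c) hb
  have h3 : a * (hs L (f + c) + C * c ^ 2) + b * (hs L (f + c) + C * c ^ 2) =
      hs L (f + c) + C * c ^ 2 := by
    rw [← add_mul, hab, one_mul]
  linarith

theorem smb_subset {L : Set (EuclideanSpace ℝ (Fin 2))} (hL : IsCompact L) (hc : Convex ℝ L)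
    (hne : L.Nonempty) (C : ℝ) : smb L C ⊆ L := by
  intro x hx
  refine mem_of_hs hL hc hne fun f => ?_
  have h := hx f 0
  simpa using h

theorem hs_rot {L : Set (EuclideanSpace ℝ (Fin 2))} {c : ℝ} (h : rot c '' L = L) (f : ℝ) :
    hs L (f + c) = hs L f := by
  unfold hs
  conv_lhs => rw [← h, image_image]
  congr 1
  refine image_congr fun y _ => ?_
  rw [inner_rot_dir, add_sub_cancel_right]

theorem smb_rot {L : Set (EuclideanSpace ℝ (Fin 2))} {c : ℝ} (h : rot c '' L = L) (C : ℝ) :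
    rot c '' smb L C = smb L C := by
  apply Subset.antisymm
  · rintro _ ⟨x, hx, rfl⟩ f a
    rw [inner_rot_dir]
    refine (hx (f - c) a).trans (le_of_eq ?_)
    rw [← hs_rot h (f - c + a)]
    congr 2
    ring
  · intro x hx
    refine ⟨rot (-c) x, fun f a => ?_, ?_⟩
    · rw [inner_rot_dir]
      refine (hx (f - -c) a).trans (le_of_eq ?_)
      rw [← hs_rot h (f + a)]
      congr 2
      ring
    · rw [rot_rot, add_neg_cancel, rot_zero]

theorem inner_rho_dir (t f : ℝ) (x : EuclideanSpace ℝ (Fin 2)) :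
    inner ℝ (rho (dir t) x) (dir f) = inner ℝ x (dir (2 * t + Real.pi - f)) := by
  rw [rho_apply (norm_dir t), inner_sub_left, real_inner_smul_left, inner_dir, inner_dir,
    inner_dir, inner_dir]
  have h2 : (dir t) 0 = Real.cos t := by simp [dir]
  have h3 : (dir t) 1 = Real.sin t := by simp [dir]
  have h4 : 2 * t + Real.pi - f = (2 * t - f) + Real.pi := by ring
  rw [h2, h3, h4, Real.cos_add_pi, Real.sin_add_pi, Real.cos_sub, Real.sin_sub,
    Real.cos_two_mul, Real.sin_two_mul]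
  have h5 := Real.sin_sq_add_cos_sq t
  have h6 : Real.cos t ^ 2 = 1 - Real.sin t ^ 2 := by linarith
  rw [h6]
  ring_nf
  rw [h6]
  ring

theorem hs_rho {L : Set (EuclideanSpace ℝ (Fin 2))} {t : ℝ} (h : rho (dir t) '' L = L) (f : ℝ) :
    hs L (2 * t + Real.pi - f) = hs L f := by
  unfold hs
  conv_rhs => rw [← h, image_image]
  congr 1
  refine image_congr fun y _ => ?_
  rw [inner_rho_dir]

theorem smb_rho {L : Set (EuclideanSpace ℝ (Fin 2))} {t : ℝ} (h : rho (dir t) '' L = L)
    (C : ℝ) : rho (dir t) '' smb L C = smb L C := by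
  have h1 : ∀ x ∈ smb L C, rho (dir t) x ∈ smb L C := by
    intro x hx f a
    rw [inner_rho_dir]
    refine (hx (2 * t + Real.pi - f) (-a)).trans (le_of_eq ?_)
    rw [← hs_rho h (f + a)]
    congr 2
    · ring
    · ring
  apply Subset.antisymm
  · rintro _ ⟨x, hx, rfl⟩
    exact h1 x hx
  · intro x hx
    exact ⟨rho (dir t) x, h1 x hx, rho_rho _ _⟩

/-- Approximation from inside by a body with a semiconcave support function. -/
theorem smooth_body {L : Set (EuclideanSpace ℝ (Fin 2))} (hL : IsCompact L) (hc : Convex ℝ L)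
    (h0 : (0 : EuclideanSpace ℝ (Fin 2)) ∈ interior L) {ε : ℝ} (hε : 0 < ε) (hε1 : ε < 1) :
    ∃ (M : Set (EuclideanSpace ℝ (Fin 2))) (C : ℝ), IsCompact M ∧ Convex ℝ M ∧
      (0 : EuclideanSpace ℝ (Fin 2)) ∈ interior M ∧ 0 ≤ C ∧
      (∀ (p : ℕ) (t : ℝ), Dihed p t L → Dihed p t M) ∧
      (∀ d : ℝ, ∀ x ∈ M, ∀ y ∈ M, ∃ z ∈ M,
        (1 / 2 : ℝ) • (rot (-d) x + rot d y) = (1 + C * d ^ 2) • z) ∧
      M ⊆ L ∧ ∀ x ∈ L, (1 - ε) • x ∈ M := by
  have hne : L.Nonempty := ⟨0, interior_subset h0⟩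
  obtain ⟨r, hr, hrL⟩ := (nhds_basis_closedBall.mem_iff).1 (mem_interior_iff_mem_nhds.1 h0)
  obtain ⟨R, hR0⟩ := hL.isBounded.subset_closedBall 0
  have hR : ∀ y ∈ L, ‖y‖ ≤ R := fun y hy => mem_closedBall_zero_iff.1 (hR0 hy)
  have hRn : 0 ≤ R := (norm_nonneg _).trans (hR 0 (interior_subset h0))
  have hsr : ∀ f, r ≤ hs L f := by
    intro f
    have h1 : r • dir f ∈ L := by
      apply hrL
      rw [mem_closedBall_zero_iff, norm_smul, norm_dir, mul_one, Real.norm_eq_abs,
        abs_of_pos hr]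
    have h2 := inner_le_hs hL h1 f
    rw [real_inner_smul_left, real_inner_self_eq_norm_sq, norm_dir] at h2
    linarith
  set D : ℝ := R ^ 2 / (ε * r) with hD
  have hεr : 0 < ε * r := mul_pos hε hr
  have hD0 : 0 ≤ D := by positivity
  have hpos : ∀ f a : ℝ, r ≤ hs L (f + a) + D * a ^ 2 := by
    intro f a
    have h1 := hsr (f + a)
    have h2 : 0 ≤ D * a ^ 2 := by positivity
    linarith
  have hkey : ∀ a : ℝ, R * |a| ≤ D * a ^ 2 + ε * r := by
    intro a
    have h1 : D * a ^ 2 + ε * r - R * |a| =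
        ((R * |a|) ^ 2 + (ε * r) ^ 2 - (R * |a|) * (ε * r)) / (ε * r) := by
      rw [hD]
      field_simp
      rw [sq_abs]
    have h2 : 0 ≤ (R * |a|) ^ 2 + (ε * r) ^ 2 - (R * |a|) * (ε * r) := by
      nlinarith [sq_nonneg (R * |a| - ε * r), sq_nonneg (R * |a| + ε * r)]
    have h3 := div_nonneg h2 hεr.le
    linarith
  have hsub : ball (0 : EuclideanSpace ℝ (Fin 2)) r ⊆ smb L D := by
    intro x hx f a
    rw [mem_ball_zero_iff] at hx
    have h1 := real_inner_le_norm x (dir f)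
    rw [norm_dir, mul_one] at h1
    linarith [hpos f a]
  refine ⟨smb L D, D / r, hL.of_isClosed_subset (isClosed_smb L D) (smb_subset hL hc hne D),
    convex_smb L D, ?_, by positivity, fun p t h => ⟨smb_rot h.1 D, smb_rho h.2 D⟩, ?_,
    smb_subset hL hc hne D, ?_⟩
  · exact interior_maximal hsub isOpen_ball (mem_ball_self hr)
  · intro d x hx y hy
    have hCd : 0 < 1 + D / r * d ^ 2 := by positivity
    refine ⟨(1 + D / r * d ^ 2)⁻¹ • (1 / 2 : ℝ) • (rot (-d) x + rot d y), fun f a => ?_, ?_⟩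
    · rw [real_inner_smul_left, real_inner_smul_left, inner_add_left, inner_rot_dir,
        inner_rot_dir, inv_mul_le_iff₀ hCd]
      have h1 := hx (f - -d) (a - d)
      have h2 := hy (f - d) (a + d)
      have e1 : f - -d + (a - d) = f + a := by ring
      have e2 : f - d + (a + d) = f + a := by ring
      rw [e1] at h1
      rw [e2] at h2
      have h3 : D * d ^ 2 ≤ D / r * d ^ 2 * (hs L (f + a) + D * a ^ 2) := by
        have h4 := mul_le_mul_of_nonneg_left (hpos f a)
          (by positivity : 0 ≤ D / r * d ^ 2)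
        have h5 : D / r * d ^ 2 * r = D * d ^ 2 := by field_simp
        linarith
      have h6 : D * (a - d) ^ 2 + D * (a + d) ^ 2 = 2 * (D * a ^ 2) + 2 * (D * d ^ 2) := by ring
      rw [add_mul, one_mul]
      linarith
    · rw [smul_inv_smul₀ hCd.ne']
  · intro x hx f a
    rw [real_inner_smul_left]
    have h1 := inner_le_hs hL hx f
    have h2 := hs_lip hL hne hR f a
    have h3 := hkey a
    have h4 := hsr f
    have h5 : (1 - ε) * inner ℝ x (dir f) ≤ (1 - ε) * hs L f :=
      mul_le_mul_of_nonneg_left h1 (by linarith)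
    nlinarith

end MP_02d86d_gt
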