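import Pool.Agent.Work.MP_02d86d_gt.Dih.Img
import Pool.Agent.Work.MP_02d86d_gt.Dih.Smooth
import Pool.Agent.Work.MP_02d86d_gt.Dih.Contr
import Pool.Agent.Work.MP_02d86d_gt.Dih.VolHaus
import Pool.Agent.Work.MP_02d86d_gt.Dih.Recenter
import Pool.Agent.Work.MP_02d86d_gt.Dih.Refl
import Pool.Agent.Work.MP_02d86d_gt.Dih.RotSym
import Pool.Agent.Work.MP_02d86d_gt.Dih.IsoLim
import Pool.Agent.Work.MP_02d86d_gt.Dih.IsoVol
import Pool.Agent.Work.MP_02d86d_gt.Dih.Follow
import Pool.Agent.Work.MP_02d86d_gt.Plane.Cont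
import Pool.Agent.Work.MP_02d86d_gt.Plane.Forward
import Pool.Agent.Work.MP_02d86d_gt.B.LimBody
import Pool.Agent.Work.MP_02d86d_gt.Plane.Sym
import Pool.Agent.Work.MP_02d86d_gt.B.Mono

/-! The shape limits in the plane. -/

set_option autoImplicit false

namespace MP_02d86d_gt

open MeasureTheory Set Filter Topology Metric
open scoped Pointwise

/-- Every shape limit has dihedral symmetry. -/
theorem dihed_of_limit {θ : ℕ → ℝ} {p : ℕ} (hp : 1 ≤ p)
    (hθ : ∀ m : ℕ, (Summable fun i => Real.sin (m * (θ (i + 1) - θ i)) ^ 2) → p ∣ m)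
    {R : ℝ} {K : ℕ → Set (EuclideanSpace ℝ (Fin 2))} (h : Iter R (fun i => dir (θ i)) K)
    (ψ : ℕ → IsometryEquiv (EuclideanSpace ℝ (Fin 2)) (EuclideanSpace ℝ (Fin 2)))
    {L : Set (EuclideanSpace ℝ (Fin 2))} (hL : IsCompact L) (hLn : L.Nonempty)
    (hlim : Tendsto (fun i => hausdorffDist (ψ i '' K i) L) atTop (𝓝 0)) :
    ∃ (c : EuclideanSpace ℝ (Fin 2)) (t : ℝ), Dihed p t ((fun x => x - c) '' L) := by
  obtain ⟨L0, φ, hφ, hL0, hLc0, hLn0, hLR0, hlim0⟩ := blaschke (fun i => K (i + 1))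
    (fun i => h.cpt _) (fun i => h.cvx _) (fun i => h.ne _) (fun i => h.sub _)
  have hv0 : volume L0 ≠ 0 := by
    have h1 := tendsto_volume (fun i => h.ne (φ i + 1)) hLn0 (fun i => h.cpt (φ i + 1)) hL0
      (fun i => h.cvx (φ i + 1)) hLc0 (fun i => h.sub (φ i + 1)) hlim0
    have h2 : (fun i => volume (K (φ i + 1))) = fun _ => volume (K 0) := funext fun i => h.vol _
    rw [h2] at h1
    rw [tendsto_nhds_unique h1 tendsto_const_nhds]
    exact h.pos
  have hT : Tendsto (fun i => φ i + 1) atTop atTop :=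
    tendsto_atTop_mono (fun i => Nat.le_succ _) hφ.tendsto_atTop
  have hmode : ∀ (s : ℝ) (m : ℤ), ¬ (p : ℤ) ∣ m → mode s m L0 = 0 := by
    intro s m hm
    have h1 : ¬ Summable fun i => Real.sin (m * (θ (i + 1) - θ i)) ^ 2 := by
      intro h2
      apply hm
      have h3 : p ∣ m.natAbs := by
        apply hθ
        refine h2.congr fun i => ?_
        rcases Int.natAbs_eq m with h4 | h4
        · have h5 : ((m.natAbs : ℕ) : ℝ) = (m : ℝ) := by
            conv_rhs => rw [h4]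
            simp
          rw [h5]
        · have h5 : ((m.natAbs : ℕ) : ℝ) = -(m : ℝ) := by
            conv_rhs => rw [h4]
            simp
          rw [h5, neg_mul, Real.sin_neg]
          ring
      exact Int.natCast_dvd.2 h3
    have h2 := (mode_tendsto_zero1 h1 h s).comp hT
    have h3 := tendsto_mode (fun i => h.ne (φ i + 1)) hLn0 (fun i => h.cpt (φ i + 1)) hL0
      (fun i => h.cvx (φ i + 1)) hLc0 (fun i => h.sub (φ i + 1)) hlim0 s m
    exact norm_eq_zero.1 (tendsto_nhds_unique h3.norm h2)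
  obtain ⟨a, ha⟩ := refl_of_limit (fun i => h.ne (φ i + 1)) hLn0 (fun i => h.cpt (φ i + 1)) hL0
    hlim0 (fun i => θ (φ i)) fun i => by
      rw [h.step]
      exact rho_st (norm_dir _) _
  have hD : Dihed p a L0 := ⟨rot_of_modes hL0 hLc0 hv0 hp hmode, ha⟩
  obtain ⟨η, rfl⟩ := isom_of_limits (fun i => h.ne (φ i + 1)) hLn0 hLn
    (fun i => h.cpt (φ i + 1)) hL0 hL hlim0 (fun i => ψ (φ i + 1)) (hlim.comp hT)
  obtain ⟨c, A, hA⟩ := image_isometry η L0
  obtain ⟨t, ht⟩ := dihed_image hD A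
  exact ⟨c, t, by rw [hA]; exact ht⟩

theorem volume_image (ψ : EuclideanSpace ℝ (Fin 2) ≃ₗᵢ[ℝ] EuclideanSpace ℝ (Fin 2))
    {K : Set (EuclideanSpace ℝ (Fin 2))} (hK : IsCompact K) : volume (ψ '' K) = volume K := by
  rw [LinearIsometryEquiv.image_eq_preimage_symm]
  exact (LinearIsometryEquiv.measurePreserving _).measure_preimage
    hK.measurableSet.nullMeasurableSet

theorem volume_gap {L M : Set (EuclideanSpace ℝ (Fin 2))} (hL : IsCompact L) (hM : IsCompact M)
    (hML : M ⊆ L) {ε : ℝ} (hε : ε ≤ 1) (h : ∀ x ∈ L, (1 - ε) • x ∈ M) :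
    volume (symmDiff M L) ≤ (1 - ENNReal.ofReal ((1 - ε) ^ 2)) * volume L := by
  have h1 : symmDiff M L = L \ M := by
    have h2 : M \ L = ∅ := sdiff_eq_empty.2 hML
    rw [symmDiff_def, h2]
    simp
  have h2 : ENNReal.ofReal ((1 - ε) ^ 2) * volume L ≤ volume M := by
    have h3 : volume ((1 - ε) • L) = ENNReal.ofReal ((1 - ε) ^ 2) * volume L := by
      rw [Measure.addHaar_smul_of_nonneg volume (by linarith), finrank_euclideanSpace_fin]
    rw [← h3]
    refine measure_mono ?_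
    rintro _ ⟨x, hx, rfl⟩
    exact h x hx
  rw [h1, measure_sdiff hML hM.measurableSet.nullMeasurableSet hM.measure_lt_top.ne,
    ENNReal.sub_mul fun _ _ => hL.measure_lt_top.ne, one_mul]
  exact tsub_le_tsub_left h2 _

/-- The shape limits come close to every body with dihedral symmetry. -/
theorem limit_near {θ : ℕ → ℝ} {p : ℕ} (hp : 1 ≤ p)
    (hs : Summable fun i => Real.sin (p * (θ (i + 1) - θ i)) ^ 2)
    {L : Set (EuclideanSpace ℝ (Fin 2))} (hL : IsCompact L) (hc : Convex ℝ L)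
    (h0 : (0 : EuclideanSpace ℝ (Fin 2)) ∈ interior L) {t : ℝ} (hD : Dihed p t L) {ε : ℝ}
    (hε : 0 < ε) :
    ∃ j₀ : ℕ, ∀ j, j₀ ≤ j → ∃ (R : ℝ) (K : ℕ → Set (EuclideanSpace ℝ (Fin 2)))
      (χ : ℕ → (EuclideanSpace ℝ (Fin 2) ≃ₗᵢ[ℝ] EuclideanSpace ℝ (Fin 2)))
      (L' : Set (EuclideanSpace ℝ (Fin 2))),
      Iter R (fun i => dir (θ (j + i))) K ∧ IsCompact L' ∧ Convex ℝ L' ∧
      (interior L').Nonempty ∧ Tendsto (fun i => hausdorffDist (χ i '' K i) L') atTop (𝓝 0) ∧
      hausdorffDist L' L < ε := by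
  obtain ⟨R, hR⟩ := hL.isBounded.subset_closedBall 0
  -- the approximating bodies
  have hk1 : ∀ k : ℕ, (0 : ℝ) < 1 / ((k : ℝ) + 2) := fun k => by positivity
  have hk2 : ∀ k : ℕ, 1 / ((k : ℝ) + 2) < 1 := fun k => by
    rw [div_lt_one (by positivity)]
    have : (0 : ℝ) ≤ k := Nat.cast_nonneg k
    linarith
  choose M C m1 m2 m3 m4 m5 m6 m7 m8 using fun k : ℕ =>
    smooth_body hL hc h0 (hk1 k) (hk2 k)
  have hek : ∀ k : ℕ, (0 : ENNReal) < ((k : ENNReal) + 1)⁻¹ := fun k => by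
    rw [ENNReal.inv_pos]
    exact ENNReal.add_ne_top.2 ⟨ENNReal.natCast_ne_top k, ENNReal.one_ne_top⟩
  choose j₀ hj₀ using fun k : ℕ => follow hp hs (m1 k) (m2 k) (m3 k) (m4 k) (m6 k) (m5 k p t hD)
    ((m7 k).trans hR) (hek k)
  -- the limit for `k` and `j`
  have key : ∀ k j : ℕ, j₀ k ≤ j → ∃ (K : ℕ → Set (EuclideanSpace ℝ (Fin 2)))
      (χ : ℕ → (EuclideanSpace ℝ (Fin 2) ≃ₗᵢ[ℝ] EuclideanSpace ℝ (Fin 2)))
      (L' : Set (EuclideanSpace ℝ (Fin 2))),
      Iter R (fun i => dir (θ (j + i))) K ∧ IsCompact L' ∧ Convex ℝ L' ∧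
      (interior L').Nonempty ∧ Tendsto (fun i => hausdorffDist (χ i '' K i) L') atTop (𝓝 0) ∧
      L' ⊆ closedBall 0 R ∧ volume (symmDiff L' (M k)) ≤ ((k : ENNReal) + 1)⁻¹ := by
    intro k j hj
    obtain ⟨K, b, hK, hb⟩ := hj₀ k j hj
    obtain ⟨ψ, L', hL', hLc', hLv', hLn', hLR', hlim'⟩ := hK.shape
    obtain ⟨η, hη⟩ := isom_of_symmDiff (R := R) (K := fun i => ψ i '' K i) (M := M k)
      (e := ((k : ENNReal) + 1)⁻¹) (fun i => (hK.ne _).image _) hLn'
      (fun i => (hK.cpt _).image (LinearIsometryEquiv.continuous _)) hL'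
      (fun i => (hK.cvx _).linear_image (ψ i).toLinearEquiv.toLinearMap) hLc'
      (fun i => image_subset_ball (hK.sub _) _) (m1 k) (m2 k) ⟨0, interior_subset (m3 k)⟩ hlim'
      (fun i => (rot (b i)).trans (ψ i)) fun i => by
        have e1 : ((rot (b i)).trans (ψ i)) '' M k = ψ i '' (rot (b i) '' M k) := by
          rw [image_image]
          rfl
        rw [e1, symmDiff_isom]
        exact hb i
    refine ⟨K, fun i => (ψ i).trans η.symm, η.symm '' L', hK,
      hL'.image η.symm.continuous, hLc'.linear_image η.symm.toLinearEquiv.toLinearMap, ?_, ?_, ?_,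
      ?_⟩
    · refine interior_nonempty_of_volume
        (hLc'.linear_image η.symm.toLinearEquiv.toLinearMap) ?_
      rw [volume_image _ hL', hLv']
      exact hK.pos
    · refine hlim'.congr fun i => ?_
      rw [← hausdorffDist_image η.symm.isometry, image_image]
      rfl
    · exact image_subset_ball hLR' _
    · have e2 : M k = η.symm '' (η '' M k) := by
        rw [image_image]
        simp
      rw [e2, symmDiff_isom]
      exact hη
  -- one `k` is enough
  have hex : ∃ k, ∀ j, j₀ k ≤ j → ∃ (K : ℕ → Set (EuclideanSpace ℝ (Fin 2)))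
      (χ : ℕ → (EuclideanSpace ℝ (Fin 2) ≃ₗᵢ[ℝ] EuclideanSpace ℝ (Fin 2)))
      (L' : Set (EuclideanSpace ℝ (Fin 2))),
      Iter R (fun i => dir (θ (j + i))) K ∧ IsCompact L' ∧ Convex ℝ L' ∧
      (interior L').Nonempty ∧ Tendsto (fun i => hausdorffDist (χ i '' K i) L') atTop (𝓝 0) ∧
      hausdorffDist L' L < ε := by
    by_contra hno
    push Not at hno
    choose j hj hj' using hno
    choose K χ L' a1 a2 a3 a4 a5 a6 a7 using fun k => key k (j k) (hj k)
    have hlim : Tendsto (fun k => volume (symmDiff (L' k) L)) atTop (𝓝 0) := by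
      have b1 : Tendsto (fun k : ℕ => ((k : ENNReal) + 1)⁻¹) atTop (𝓝 0) := by
        have := (tendsto_add_atTop_iff_nat (f := fun k : ℕ => ((k : ℕ) : ENNReal)⁻¹) 1).2
          ENNReal.tendsto_inv_nat_nhds_zero
        refine this.congr fun k => ?_
        push_cast
        rfl
      have b2 : Tendsto (fun k : ℕ => (1 - ENNReal.ofReal ((1 - 1 / ((k : ℝ) + 2)) ^ 2)) *
          volume L) atTop (𝓝 0) := by
        have c1 : Tendsto (fun k : ℕ => (1 - 1 / ((k : ℝ) + 2)) ^ 2) atTop (𝓝 ((1 - 0) ^ 2)) := by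
          refine (tendsto_const_nhds.sub ?_).pow 2
          have := (tendsto_add_atTop_iff_nat (f := fun k : ℕ => 1 / (k : ℝ)) 2).2
            tendsto_one_div_atTop_nhds_zero_nat
          refine this.congr fun k => ?_
          push_cast
          rfl
        have c2 := ENNReal.tendsto_ofReal c1
        have c3 := ENNReal.Tendsto.sub (tendsto_const_nhds (x := (1 : ENNReal)) (f := atTop)) c2
          (Or.inl ENNReal.one_ne_top)
        have c4 := ENNReal.Tendsto.mul_const (b := volume L) c3 (Or.inr hL.measure_lt_top.ne)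
        simpa using c4
      refine tendsto_of_tendsto_of_tendsto_of_le_of_le tendsto_const_nhds (by simpa using b1.add b2)
        (fun k => zero_le) fun k => ?_
      refine (measure_symmDiff_le _ (M k) _).trans ?_
      refine add_le_add (a7 k) ?_
      have := volume_gap (ε := 1 / ((k : ℝ) + 2)) hL (m1 k) (m7 k) (hk2 k).le (m8 k)
      simpa using this
    have hfin := hausdorff_of_volume hL hc ⟨0, h0⟩ a2 a3
      (fun k => (a4 k).mono interior_subset) a6 hlim
    obtain ⟨k, hk⟩ := (hfin.eventually (gt_mem_nhds hε)).exists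
    exact absurd hk (not_lt.2 (hj' k (K k) (χ k) (L' k) (a1 k) (a2 k) (a3 k) (a4 k) (a5 k)))
  obtain ⟨k, hk⟩ := hex
  refine ⟨j₀ k, fun j hj => ?_⟩
  obtain ⟨K, χ, L', h1, h2, h3, h4, h5, h6⟩ := hk j hj
  exact ⟨R, K, χ, L', h1, h2, h3, h4, h5, h6⟩

end MP_02d86d_gt
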